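import Mathlib

/-! MP_301213_nt: tails of multiple zeta values, as functions of the cut. -/

open Filter Topology
open scoped ENNReal

namespace HofPers

/-- indicator -/
noncomputable def kk (a M m : ℕ) : ℝ≥0∞ := if M < m then ((m : ℝ≥0∞) ^ a)⁻¹ else 0

/-- tail sums `∑_{M < m_1 < ... < m_n} ∏ m_i^{-l_i}` -/
noncomputable def TE : List ℕ → ℕ → ℝ≥0∞
  | [], _ => 1
  | (a :: l), M => ∑' m : ℕ, kk a M m * TE l m

/-- the terms `∑_{m_1 < ... < m_n = M}` for the reversed word -/
noncomputable def aR : List ℕ → ℕ → ℝ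
  | [], M => if M = 0 then 1 else 0
  | (a :: l), M => ((M : ℝ) ^ a)⁻¹ * ∑ j ∈ Finset.range M, aR l j

theorem aR_nonneg : ∀ (l : List ℕ) (M : ℕ), 0 ≤ aR l M
  | [], M => by simp only [aR]; split_ifs <;> norm_num
  | (a :: l), M => by
    simp only [aR]
    have := Finset.sum_nonneg (s := Finset.range M) fun j _ => aR_nonneg l j
    positivity

theorem aR_zero_of_lt : ∀ (l : List ℕ) (M : ℕ), M < l.length → aR l M = 0
  | [], M, h => by simp at h
  | (a :: l), M, h => by
    simp only [aR]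
    rw [Finset.sum_eq_zero, mul_zero]
    intro j hj
    refine aR_zero_of_lt l j ?_
    have := Finset.mem_range.1 hj
    simp at h
    omega

theorem aR_pos : ∀ (l : List ℕ), 0 < aR l l.length
  | [] => by simp [aR]
  | (a :: l) => by
    simp only [aR, List.length_cons]
    have h1 : 0 < ∑ j ∈ Finset.range (l.length + 1), aR l j :=
      Finset.sum_pos' (fun j _ => aR_nonneg l j)
        ⟨l.length, Finset.mem_range.2 (Nat.lt_succ_self _), aR_pos l⟩
    have h2 : (0 : ℝ) < ((l.length + 1 : ℕ) : ℝ) := by positivity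
    positivity

/-- partial sums -/
noncomputable def sR (l : List ℕ) (M : ℕ) : ℝ := ∑ j ∈ Finset.range (M + 1), aR l j

theorem sR_nil (M : ℕ) : sR [] M = 1 := by
  simp [sR, aR, Finset.sum_ite_eq']

theorem sR_cons (a : ℕ) (l : List ℕ) (M : ℕ) :
    sR (a :: l) (M + 1) = sR (a :: l) M + (((M : ℝ) + 1) ^ a)⁻¹ * sR l M := by
  rw [sR, Finset.sum_range_succ, ← sR]
  congr 1
  rw [aR, sR]
  push_cast
  rfl

/-- all letters at least two -/
def Adm (l : List ℕ) : Prop := ∀ a ∈ l, 2 ≤ a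

theorem Adm.tail {a : ℕ} {l : List ℕ} (h : Adm (a :: l)) : Adm l :=
  fun b hb => h b (List.mem_cons_of_mem _ hb)

theorem kk_le_two {a M m : ℕ} (ha : 2 ≤ a) : kk a M m ≤ kk 2 0 m := by
  unfold kk
  by_cases h : M < m
  · have hm : 0 < m := lt_of_le_of_lt (Nat.zero_le _) h
    rw [if_pos h, if_pos hm, ENNReal.inv_le_inv]
    have h1 : (1 : ℝ≥0∞) ≤ m := by exact_mod_cast hm
    exact pow_le_pow_right₀ h1 ha
  · rw [if_neg h]; simp

theorem kk_ne_top (a M m : ℕ) : kk a M m ≠ ∞ := by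
  unfold kk
  split_ifs with h
  · rw [Ne, ENNReal.inv_eq_top, pow_eq_zero_iff']
    rintro ⟨h1, _⟩
    have : m = 0 := by exact_mod_cast h1
    omega
  · exact ENNReal.zero_ne_top

theorem kk_toReal (a M m : ℕ) : (kk a M m).toReal = if M < m then ((m : ℝ) ^ a)⁻¹ else 0 := by
  unfold kk
  split_ifs with h
  · rw [ENNReal.toReal_inv, ENNReal.toReal_pow, ENNReal.toReal_natCast]
  · rfl

theorem Z2_ne_top : ∑' m : ℕ, kk 2 0 m ≠ ∞ := by
  have h : Summable fun m : ℕ => (kk 2 0 m).toReal := by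
    have h1 : Summable fun m : ℕ => ((m : ℝ) ^ 2)⁻¹ := Real.summable_nat_pow_inv.2 (by norm_num)
    refine Summable.of_nonneg_of_le (fun _ => ENNReal.toReal_nonneg) (fun m => ?_) h1
    rw [kk_toReal]
    split_ifs
    · exact le_rfl
    · positivity
  have h2 := ENNReal.tsum_coe_ne_top_iff_summable.2 (NNReal.summable_coe.1 (show
    Summable fun m : ℕ => ((kk 2 0 m).toNNReal : ℝ) from h))
  convert h2 using 3 with m
  exact (ENNReal.coe_toNNReal (kk_ne_top 2 0 m)).symm

theorem TE_le : ∀ (l : List ℕ) (_ : Adm l) (M : ℕ),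
    TE l M ≤ (∑' m : ℕ, kk 2 0 m) ^ l.length
  | [], _, M => by simp [TE]
  | (a :: l), h, M => by
    rw [TE, List.length_cons, pow_succ, mul_comm, ← ENNReal.tsum_mul_right]
    exact ENNReal.tsum_le_tsum fun m =>
      mul_le_mul' (kk_le_two (h a (by simp))) (TE_le l h.tail m)

theorem TE_ne_top {l : List ℕ} (h : Adm l) (M : ℕ) : TE l M ≠ ∞ :=
  ne_top_of_le_ne_top (ENNReal.pow_ne_top Z2_ne_top) (TE_le l h M)

theorem TE_step (a : ℕ) (l : List ℕ) (M : ℕ) :
    TE (a :: l) M = (((M + 1 : ℕ) : ℝ≥0∞) ^ a)⁻¹ * TE l (M + 1) + TE (a :: l) (M + 1) := by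
  rw [TE, TE, ENNReal.tsum_eq_add_tsum_ite (M + 1)]
  congr 1
  · rw [kk, if_pos (Nat.lt_succ_self M)]
  · refine tsum_congr fun m => ?_
    unfold kk
    by_cases h : m = M + 1
    · subst h; simp
    · rw [if_neg h]
      by_cases h2 : M < m
      · rw [if_pos h2, if_pos (by omega)]
      · rw [if_neg h2, if_neg (by omega)]

/-- the convolution at a cut -/
theorem conv_eq : ∀ (w v : List ℕ),
    ∑' M : ℕ, ENNReal.ofReal (aR w M) * TE v M = TE (w.reverse ++ v) 0
  | [], v => by
    rw [tsum_eq_single 0]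
    · simp [aR]
    · intro M hM
      simp [aR, hM]
  | (a :: w), v => by
    have h1 := conv_eq w (a :: v)
    rw [List.reverse_cons, List.append_assoc, List.singleton_append, ← h1]
    simp only [TE]
    simp_rw [← ENNReal.tsum_mul_left]
    rw [ENNReal.tsum_comm]
    refine tsum_congr fun m => ?_
    have h2 : ENNReal.ofReal (aR (a :: w) m) = ∑' j : ℕ, ENNReal.ofReal (aR w j) * kk a j m := by
      rw [tsum_eq_sum (s := Finset.range m)]
      · rw [aR]
        rcases Nat.eq_zero_or_pos m with rfl | hm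
        · simp
        · have hm' : (0 : ℝ) < m := by exact_mod_cast hm
          rw [Finset.mul_sum, ENNReal.ofReal_sum_of_nonneg
            (fun j _ => mul_nonneg (by positivity) (aR_nonneg w j))]
          refine Finset.sum_congr rfl fun j hj => ?_
          rw [kk, if_pos (Finset.mem_range.1 hj), mul_comm, ENNReal.ofReal_mul (aR_nonneg w j),
            ENNReal.ofReal_inv_of_pos (by positivity), ENNReal.ofReal_pow hm'.le,
            ENNReal.ofReal_natCast]
      · intro j hj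
        rw [kk, if_neg (by simpa using hj), mul_zero]
    rw [h2, ← ENNReal.tsum_mul_right]
    refine tsum_congr fun j => ?_
    ring

/-! ### real valued tails -/

noncomputable def T (l : List ℕ) (M : ℕ) : ℝ := (TE l M).toReal

theorem T_nil (M : ℕ) : T [] M = 1 := by simp [T, TE]

theorem T_step {a : ℕ} {l : List ℕ} (h : Adm (a :: l)) (M : ℕ) :
    T (a :: l) M = (((M : ℝ) + 1) ^ a)⁻¹ * T l (M + 1) + T (a :: l) (M + 1) := by
  rw [T, TE_step, ENNReal.toReal_add, ENNReal.toReal_mul, ENNReal.toReal_inv, ENNReal.toReal_pow,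
    ENNReal.toReal_natCast, T, T]
  · push_cast; rfl
  · refine ENNReal.mul_ne_top ?_ (TE_ne_top h.tail _)
    rw [Ne, ENNReal.inv_eq_top, pow_eq_zero_iff']
    rintro ⟨h1, _⟩
    have : M + 1 = 0 := by exact_mod_cast h1
    omega
  · exact TE_ne_top h _

theorem T_nonneg (l : List ℕ) (M : ℕ) : 0 ≤ T l M := ENNReal.toReal_nonneg

theorem T_pos : ∀ {l : List ℕ} (_ : Adm l) (M : ℕ), 0 < T l M
  | [], _, M => by rw [T_nil]; exact one_pos
  | (a :: l), h, M => by
    rw [T_step h]
    have h1 := T_pos h.tail (M + 1)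
    have h2 := T_nonneg (a :: l) (M + 1)
    positivity

theorem T_anti {l : List ℕ} (h : Adm l) {M m : ℕ} (hM : M ≤ m) : T l m ≤ T l M := by
  induction m, hM using Nat.le_induction with
  | base => exact le_rfl
  | succ m _ IH =>
    refine le_trans ?_ IH
    cases l with
    | nil => rw [T_nil, T_nil]
    | cons a l =>
      rw [T_step h m]
      have h1 := T_nonneg l (m + 1)
      have : 0 ≤ (((m : ℝ) + 1) ^ a)⁻¹ * T l (m + 1) := by positivity
      linarith

theorem T_tsum {a : ℕ} {l : List ℕ} (h : Adm (a :: l)) (M : ℕ) :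
    (Summable fun m : ℕ => (if M < m then ((m : ℝ) ^ a)⁻¹ else 0) * T l m) ∧
    T (a :: l) M = ∑' m : ℕ, (if M < m then ((m : ℝ) ^ a)⁻¹ else 0) * T l m := by
  have hne := TE_ne_top h M
  rw [TE] at hne
  have hterm : ∀ m : ℕ, (kk a M m * TE l m).toReal =
      (if M < m then ((m : ℝ) ^ a)⁻¹ else 0) * T l m := by
    intro m
    rw [ENNReal.toReal_mul, kk_toReal, T]
  constructor
  · have := ENNReal.summable_toReal hne
    simpa only [hterm] using this
  · rw [T, TE, ENNReal.tsum_toReal_eq]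
    · exact tsum_congr hterm
    · intro m
      exact ENNReal.mul_ne_top (kk_ne_top _ _ _) (TE_ne_top h.tail m)

/-! ### comparison with the words `2 ... 2` -/

noncomputable def En (n : ℕ) (M : ℕ) : ℝ := T (List.replicate n 2) M

theorem adm_rep (n : ℕ) : Adm (List.replicate n 2) := by
  intro a ha
  rw [List.eq_of_mem_replicate ha]

theorem En_pos (n M : ℕ) : 0 < En n M := T_pos (adm_rep n) M

theorem cmp_chain {f g : ℕ → ℝ} (hf : ∀ M, 0 < f M) (hg : ∀ M, 0 < g M)
    (h : ∀ M, f (M + 1) * g M ≤ g (M + 1) * f M) {M m : ℕ} (hM : M ≤ m) :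
    f m * g M ≤ g m * f M := by
  induction m, hM using Nat.le_induction with
  | base => rw [mul_comm]
  | succ m _ IH =>
    have h1 := h m
    have h2 : f (m + 1) * g M * (f m * g m) ≤ g (m + 1) * f M * (f m * g m) := by
      calc f (m + 1) * g M * (f m * g m) = (f (m + 1) * g m) * (f m * g M) := by ring
        _ ≤ (g (m + 1) * f m) * (g m * f M) :=
          mul_le_mul h1 IH (mul_nonneg (hf _).le (hg _).le) (mul_nonneg (hg _).le (hf _).le)
        _ = g (m + 1) * f M * (f m * g m) := by ring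
    exact le_of_mul_le_mul_right h2 (mul_pos (hf m) (hg m))

theorem T_cmp : ∀ {v : List ℕ} (_ : Adm v) (M : ℕ),
    T v (M + 1) * En v.length M ≤ En v.length (M + 1) * T v M
  | [], _, M => by simp [En, T_nil]
  | (a :: v), h, M => by
    have hv := h.tail
    have ha : 2 ≤ a := h a (by simp)
    set n := v.length with hn
    have hrep : List.replicate (n + 1) 2 = 2 :: List.replicate n 2 := rfl
    have hadm : Adm (2 :: List.replicate n 2) := by rw [← hrep]; exact adm_rep _
    have hEstep : En (n + 1) M = (((M : ℝ) + 1) ^ 2)⁻¹ * En n (M + 1) + En (n + 1) (M + 1) :=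
      T_step hadm M
    have hTstep := T_step h M
    rw [List.length_cons, ← hn, hEstep, hTstep]
    have key : T (a :: v) (M + 1) * ((((M : ℝ) + 1) ^ 2)⁻¹ * En n (M + 1)) ≤
        En (n + 1) (M + 1) * ((((M : ℝ) + 1) ^ a)⁻¹ * T v (M + 1)) := by
      obtain ⟨hs1, he1⟩ := T_tsum h (M + 1)
      obtain ⟨hs2, he2⟩ := T_tsum hadm (M + 1)
      have he2' : En (n + 1) (M + 1) = _ := he2
      rw [he1, he2', ← tsum_mul_right, ← tsum_mul_right]
      refine Summable.tsum_le_tsum (fun m => ?_) (hs1.mul_right _) (hs2.mul_right _)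
      by_cases hm : M + 1 < m
      · rw [if_pos hm, if_pos hm]
        have hm0 : (0 : ℝ) < m := by exact_mod_cast (lt_of_le_of_lt (Nat.zero_le _) hm)
        have hM0 : (0 : ℝ) < (M : ℝ) + 1 := by positivity
        have hMm : (M : ℝ) + 1 ≤ m := by exact_mod_cast hm.le
        have hchain : T v m * En n (M + 1) ≤ En n m * T v (M + 1) :=
          cmp_chain (f := T v) (g := En n) (T_pos hv) (En_pos n)
            (fun M => by have := T_cmp hv M; rwa [← hn] at this) hm.le
        have hpow : ((m : ℝ) ^ a)⁻¹ * (((M : ℝ) + 1) ^ 2)⁻¹ ≤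
            ((m : ℝ) ^ 2)⁻¹ * (((M : ℝ) + 1) ^ a)⁻¹ := by
          rw [← mul_inv, ← mul_inv]
          refine inv_anti₀ (by positivity) ?_
          obtain ⟨b, rfl⟩ := Nat.exists_eq_add_of_le ha
          have : ((M : ℝ) + 1) ^ b ≤ (m : ℝ) ^ b := pow_le_pow_left₀ hM0.le hMm b
          calc (m : ℝ) ^ 2 * ((M : ℝ) + 1) ^ (2 + b)
              = (m : ℝ) ^ 2 * ((M : ℝ) + 1) ^ 2 * ((M : ℝ) + 1) ^ b := by ring
            _ ≤ (m : ℝ) ^ 2 * ((M : ℝ) + 1) ^ 2 * (m : ℝ) ^ b := by gcongr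
            _ = (m : ℝ) ^ (2 + b) * ((M : ℝ) + 1) ^ 2 := by ring
        have e1 : ((m : ℝ) ^ a)⁻¹ * T v m * ((((M : ℝ) + 1) ^ 2)⁻¹ * En n (M + 1)) =
            (((m : ℝ) ^ a)⁻¹ * (((M : ℝ) + 1) ^ 2)⁻¹) * (T v m * En n (M + 1)) := by ring
        have e2 : ((m : ℝ) ^ 2)⁻¹ * T (List.replicate n 2) m *
            ((((M : ℝ) + 1) ^ a)⁻¹ * T v (M + 1)) =
            (((m : ℝ) ^ 2)⁻¹ * (((M : ℝ) + 1) ^ a)⁻¹) * (En n m * T v (M + 1)) := by
          rw [En]; ring
        rw [e1, e2]
        exact mul_le_mul hpow hchain (mul_nonneg (T_nonneg _ _) (En_pos _ _).le) (by positivity)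
      · rw [if_neg hm, if_neg hm]; simp
    nlinarith [key]

theorem newton_E (n : ℕ) (M : ℕ) :
    ((n + 1 : ℕ) : ℝ≥0∞) * TE (List.replicate (n + 1) 2) M ≤
      TE [2] M * TE (List.replicate n 2) M := by
  induction n generalizing M with
  | zero => simp [TE]
  | succ n IH =>
    have hone : ∀ k, TE [2] k = ∑' j : ℕ, kk 2 k j := by intro k; simp [TE]
    have hR : TE (List.replicate (n + 1) 2) M = ∑' m : ℕ, kk 2 M m * TE (List.replicate n 2) m :=
      rfl
    have hR2 : TE (List.replicate (n + 1 + 1) 2) M =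
        ∑' m : ℕ, kk 2 M m * TE (List.replicate (n + 1) 2) m := rfl
    -- the product as a double sum
    have hprod : TE [2] M * TE (List.replicate (n + 1) 2) M =
        ∑' m : ℕ, ∑' j : ℕ, kk 2 M j * (kk 2 M m * TE (List.replicate n 2) m) := by
      rw [hone, hR, ← ENNReal.tsum_mul_left]
      refine tsum_congr fun m => ?_
      rw [ENNReal.tsum_mul_right]
    have hsplit : ∀ m j : ℕ, kk 2 M m * (kk 2 m j * TE (List.replicate n 2) m) +
        kk 2 M j * (kk 2 j m * TE (List.replicate n 2) m) ≤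
        kk 2 M j * (kk 2 M m * TE (List.replicate n 2) m) := by
      intro m j
      unfold kk
      rcases lt_trichotomy m j with h | h | h
      · rw [if_pos h, if_neg (not_lt.2 h.le)]
        by_cases hM : M < m
        · rw [if_pos hM, if_pos (hM.trans h), zero_mul, mul_zero, add_zero]
          apply le_of_eq; ring
        · rw [if_neg hM]; simp
      · subst h; simp
      · rw [if_pos h, if_neg (not_lt.2 h.le)]
        by_cases hM : M < j
        · rw [if_pos hM, if_pos (hM.trans h), zero_mul, mul_zero, zero_add]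
        · rw [if_neg hM]; simp
    rw [hprod]
    have h1 : ∑' m : ℕ, ∑' j : ℕ, kk 2 M m * (kk 2 m j * TE (List.replicate n 2) m) =
        ∑' m : ℕ, kk 2 M m * (TE [2] m * TE (List.replicate n 2) m) := by
      refine tsum_congr fun m => ?_
      rw [ENNReal.tsum_mul_left, ENNReal.tsum_mul_right, hone]
    have h2 : ∑' m : ℕ, ∑' j : ℕ, kk 2 M j * (kk 2 j m * TE (List.replicate n 2) m) =
        TE (List.replicate (n + 1 + 1) 2) M := by
      rw [ENNReal.tsum_comm, hR2]
      refine tsum_congr fun j => ?_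
      rw [ENNReal.tsum_mul_left]
      rfl
    have h3 : ((n + 1 : ℕ) : ℝ≥0∞) * TE (List.replicate (n + 1 + 1) 2) M ≤
        ∑' m : ℕ, kk 2 M m * (TE [2] m * TE (List.replicate n 2) m) := by
      rw [hR2, ← ENNReal.tsum_mul_left]
      refine ENNReal.tsum_le_tsum fun m => ?_
      calc ((n + 1 : ℕ) : ℝ≥0∞) * (kk 2 M m * TE (List.replicate (n + 1) 2) m)
          = kk 2 M m * (((n + 1 : ℕ) : ℝ≥0∞) * TE (List.replicate (n + 1) 2) m) := by ring
        _ ≤ kk 2 M m * (TE [2] m * TE (List.replicate n 2) m) := mul_le_mul' le_rfl (IH m)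
    calc ((n + 1 + 1 : ℕ) : ℝ≥0∞) * TE (List.replicate (n + 1 + 1) 2) M
        = ((n + 1 : ℕ) : ℝ≥0∞) * TE (List.replicate (n + 1 + 1) 2) M +
          TE (List.replicate (n + 1 + 1) 2) M := by push_cast; ring
      _ ≤ (∑' m : ℕ, ∑' j : ℕ, kk 2 M m * (kk 2 m j * TE (List.replicate n 2) m)) +
          ∑' m : ℕ, ∑' j : ℕ, kk 2 M j * (kk 2 j m * TE (List.replicate n 2) m) := by
          rw [h1, h2]; gcongr
      _ = ∑' m : ℕ, ∑' j : ℕ, (kk 2 M m * (kk 2 m j * TE (List.replicate n 2) m) +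
          kk 2 M j * (kk 2 j m * TE (List.replicate n 2) m)) := by
          rw [← ENNReal.tsum_add]
          exact tsum_congr fun m => ENNReal.tsum_add.symm
      _ ≤ _ := ENNReal.tsum_le_tsum fun m => ENNReal.tsum_le_tsum fun j => hsplit m j

theorem newton (n : ℕ) (M : ℕ) : ((n : ℝ) + 1) * En (n + 1) M ≤ En 1 M * En n M := by
  have h := newton_E n M
  have h1 := (ENNReal.toReal_le_toReal
    (ENNReal.mul_ne_top (ENNReal.natCast_ne_top _) (TE_ne_top (adm_rep _) M))
    (ENNReal.mul_ne_top (TE_ne_top (adm_rep 1) M) (TE_ne_top (adm_rep n) M))).2 h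
  rw [ENNReal.toReal_mul, ENNReal.toReal_mul, ENNReal.toReal_natCast] at h1
  push_cast at h1
  exact h1

/-! ### quadratic decay of the ratio of consecutive tails -/

theorem adm_two_rep (n : ℕ) : Adm (2 :: List.replicate n 2) := adm_rep (n + 1)

theorem En_step (n M : ℕ) :
    En (n + 1) M = (((M : ℝ) + 1) ^ 2)⁻¹ * En n (M + 1) + En (n + 1) (M + 1) :=
  T_step (adm_two_rep n) M

/-- comparison of the sums defining `E_{n+2}` and `E_{n+1}` -/
theorem En_shift_of (n K M : ℕ)
    (h : ∀ m, K < m → En (n + 1) m * En n M ≤ En (n + 1) M * En n m) :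
    En (n + 2) K * En n M ≤ En (n + 1) M * En (n + 1) K := by
  obtain ⟨hs1, he1⟩ := T_tsum (adm_two_rep (n + 1)) K
  obtain ⟨hs2, he2⟩ := T_tsum (adm_two_rep n) K
  have he1' : En (n + 2) K = _ := he1
  have he2' : En (n + 1) K = _ := he2
  rw [he1', he2', ← tsum_mul_right, ← tsum_mul_left]
  refine Summable.tsum_le_tsum (fun m => ?_) (hs1.mul_right _) (hs2.mul_left _)
  by_cases hm : K < m
  · rw [if_pos hm]
    have h1 := h m hm
    have h2 : (0 : ℝ) ≤ ((m : ℝ) ^ 2)⁻¹ := by positivity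
    have e1 : ((m : ℝ) ^ 2)⁻¹ * T (List.replicate (n + 1) 2) m * En n M =
        ((m : ℝ) ^ 2)⁻¹ * (En (n + 1) m * En n M) := by
      rw [show T (List.replicate (n + 1) 2) m = En (n + 1) m from rfl]; ring
    have e2 : En (n + 1) M * (((m : ℝ) ^ 2)⁻¹ * T (List.replicate n 2) m) =
        ((m : ℝ) ^ 2)⁻¹ * (En (n + 1) M * En n m) := by
      rw [show T (List.replicate n 2) m = En n m from rfl]; ring
    rw [e1, e2]
    exact mul_le_mul_of_nonneg_left h1 h2
  · rw [if_neg hm]; simp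

theorem mono_R : ∀ (n : ℕ) {M m : ℕ}, M ≤ m →
    En (n + 1) m * En n M ≤ En (n + 1) M * En n m
  | 0, M, m, h => by
    have h1 : En 1 m ≤ En 1 M := T_anti (adm_rep 1) h
    have h0 : ∀ k, En 0 k = 1 := fun k => T_nil k
    rw [h0, h0]; linarith
  | (n + 1), M, m, h => by
    have key : ∀ M, En (n + 1 + 1) (M + 1) * En (n + 1) M ≤
        En (n + 1) (M + 1) * En (n + 1 + 1) M := by
      intro M
      have hlc := En_shift_of n (M + 1) (M + 1) (fun _ hm => mono_R n hm.le)
      rw [En_step n M, En_step (n + 1) M]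
      have hy : (0 : ℝ) ≤ (((M : ℝ) + 1) ^ 2)⁻¹ := by positivity
      have := mul_le_mul_of_nonneg_left hlc hy
      nlinarith [this]
    have := cmp_chain (f := En (n + 1 + 1)) (g := En (n + 1)) (En_pos _) (En_pos _)
      (fun M => by have := key M; linarith) h
    linarith

theorem shift_R (n M : ℕ) :
    En (n + 2) M * En n (M + 1) ≤ En (n + 1) (M + 1) * En (n + 1) M :=
  En_shift_of n M (M + 1) (fun _ hm => mono_R n hm)

theorem shift_R_iter (n : ℕ) : ∀ j M : ℕ,
    En (n + j + 1) M * En n (M + j) ≤ En (n + 1) (M + j) * En (n + j) M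
  | 0, M => by simp
  | (j + 1), M => by
    have h1 := shift_R (n + j) M
    have h2 := shift_R_iter n j (M + 1)
    have e : M + 1 + j = M + (j + 1) := by ring
    rw [e] at h2
    have hp1 := En_pos (n + j) (M + 1)
    have hp2 := En_pos (n + j + 1) M
    have hp3 := En_pos n (M + (j + 1))
    have hp4 := En_pos (n + j + 1) (M + 1)
    have h3 : (En (n + j + 2) M * En n (M + (j + 1))) * (En (n + j) (M + 1) * En (n + j + 1) (M + 1)) ≤
        (En (n + 1) (M + (j + 1)) * En (n + j + 1) M) *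
          (En (n + j) (M + 1) * En (n + j + 1) (M + 1)) := by
      calc (En (n + j + 2) M * En n (M + (j + 1))) * (En (n + j) (M + 1) * En (n + j + 1) (M + 1))
          = (En (n + j + 2) M * En (n + j) (M + 1)) *
            (En (n + j + 1) (M + 1) * En n (M + (j + 1))) := by ring
        _ ≤ (En (n + j + 1) (M + 1) * En (n + j + 1) M) *
            (En (n + 1) (M + (j + 1)) * En (n + j) (M + 1)) := by
          refine mul_le_mul h1 h2 ?_ ?_
          · exact (mul_pos hp4 hp3).le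
          · exact (mul_pos hp4 hp2).le
        _ = _ := by ring
    exact le_of_mul_le_mul_right h3 (mul_pos hp1 hp4)

theorem En_one_le (K : ℕ) : ((K : ℝ) + 1) * En 1 K ≤ 2 := by
  obtain ⟨hs, he⟩ := T_tsum (adm_two_rep 0) K
  have he' : En 1 K = _ := he
  have hle : En 1 K ≤ 2 / (K + 1) := by
    rw [he']
    refine hs.tsum_le_of_sum_range_le fun n => ?_
    refine le_trans ?_ (sum_Ioo_inv_sq_le (α := ℝ) K n)
    have hterm : ∀ m : ℕ, (if K < m then ((m : ℝ) ^ 2)⁻¹ else 0) * T (List.replicate 0 2) m =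
        if K < m then ((m : ℝ) ^ 2)⁻¹ else 0 := by
      intro m
      simp [T_nil]
    rw [Finset.sum_congr rfl fun m _ => hterm m, ← Finset.sum_filter]
    refine Finset.sum_le_sum_of_subset_of_nonneg ?_ fun _ _ _ => by positivity
    intro m hm
    simp only [Finset.mem_filter, Finset.mem_range] at hm
    exact Finset.mem_Ioo.2 ⟨hm.2, hm.1⟩
  have hK : (0 : ℝ) < (K : ℝ) + 1 := by positivity
  rw [le_div_iff₀ hK] at hle
  linarith

theorem R_le (N M : ℕ) : ((N : ℝ) + 1) ^ 2 * En (N + 1) M ≤ 8 * En N M := by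
  -- `N = n + j` with `j = N / 2`
  set j := N / 2 with hj
  obtain ⟨n, hn⟩ : ∃ n, N = n + j := ⟨N - j, by omega⟩
  have h1 := shift_R_iter n j M
  have h2 := newton n (M + j)
  have h3 := En_one_le (M + j)
  have hp1 := En_pos n (M + j)
  have hp2 := En_pos (n + j) M
  have hp3 := En_pos (n + 1) (M + j)
  rw [hn]
  have hprod : (((n + j : ℕ) : ℝ) + 1) ^ 2 ≤ 4 * (((n : ℝ) + 1) * (((M + j : ℕ) : ℝ) + 1)) := by
    have ha : n + j + 1 ≤ 2 * (n + 1) := by omega
    have hb : n + j + 1 ≤ 2 * (M + j + 1) := by omega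
    have ha' : ((n + j : ℕ) : ℝ) + 1 ≤ 2 * ((n : ℝ) + 1) := by exact_mod_cast ha
    have hb' : ((n + j : ℕ) : ℝ) + 1 ≤ 2 * (((M + j : ℕ) : ℝ) + 1) := by exact_mod_cast hb
    have hpos : (0 : ℝ) ≤ ((n + j : ℕ) : ℝ) + 1 := by positivity
    have := mul_le_mul ha' hb' hpos (by positivity)
    calc (((n + j : ℕ) : ℝ) + 1) ^ 2 = (((n + j : ℕ) : ℝ) + 1) * (((n + j : ℕ) : ℝ) + 1) := by ring
      _ ≤ _ := this
      _ = _ := by ring
  have h4 : (((n + j : ℕ) : ℝ) + 1) ^ 2 * En (n + j + 1) M * En n (M + j) ≤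
      8 * En (n + j) M * En n (M + j) := by
    have hp4 : 0 ≤ ((M + j : ℕ) : ℝ) + 1 := by positivity
    calc (((n + j : ℕ) : ℝ) + 1) ^ 2 * En (n + j + 1) M * En n (M + j)
        = (((n + j : ℕ) : ℝ) + 1) ^ 2 * (En (n + j + 1) M * En n (M + j)) := by ring
      _ ≤ (4 * (((n : ℝ) + 1) * (((M + j : ℕ) : ℝ) + 1))) *
          (En (n + 1) (M + j) * En (n + j) M) := by
        refine mul_le_mul hprod h1 ?_ (by positivity)
        exact (mul_pos (En_pos _ _) hp1).le
      _ = 4 * (((M + j : ℕ) : ℝ) + 1) * En (n + j) M * (((n : ℝ) + 1) * En (n + 1) (M + j)) := by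
        ring
      _ ≤ 4 * (((M + j : ℕ) : ℝ) + 1) * En (n + j) M * (En 1 (M + j) * En n (M + j)) := by
        refine mul_le_mul_of_nonneg_left h2 ?_
        positivity
      _ = 4 * ((((M + j : ℕ) : ℝ) + 1) * En 1 (M + j)) * (En (n + j) M * En n (M + j)) := by ring
      _ ≤ 4 * 2 * (En (n + j) M * En n (M + j)) := by
        refine mul_le_mul_of_nonneg_right ?_ (mul_pos hp2 hp1).le
        linarith
      _ = 8 * En (n + j) M * En n (M + j) := by ring
  exact le_of_mul_le_mul_right h4 hp1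

/-- the ratio of consecutive tails is small for long words -/
theorem ratio_bound (M : ℕ) {v : List ℕ} (hv : Adm v) :
    (v.length : ℝ) ^ 2 * T v (M + 1) ≤ 8 * ((M : ℝ) + 1) ^ 2 * T v M := by
  cases hl : v.length with
  | zero =>
    have h1 := T_nonneg v M
    have e : (((0 : ℕ) : ℝ)) ^ 2 * T v (M + 1) = 0 := by simp
    rw [e]
    positivity
  | succ n =>
    have h1 := T_cmp hv M
    rw [hl] at h1
    have h2 := R_le n (M + 1)
    have h3 := En_step n M
    have h4 : (((M : ℝ) + 1) ^ 2)⁻¹ * En n (M + 1) ≤ En (n + 1) M := by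
      rw [h3]; have := En_pos (n + 1) (M + 1); linarith
    have h5 : En n (M + 1) ≤ ((M : ℝ) + 1) ^ 2 * En (n + 1) M := by
      rw [inv_mul_le_iff₀ (by positivity)] at h4
      exact h4
    have hE := En_pos (n + 1) M
    have hT := T_pos hv M
    have h6 : ((((n + 1 : ℕ) : ℝ)) ^ 2 * T v (M + 1)) * En (n + 1) M ≤
        (8 * ((M : ℝ) + 1) ^ 2 * T v M) * En (n + 1) M := by
      push_cast
      calc (((n : ℝ) + 1) ^ 2 * T v (M + 1)) * En (n + 1) M
          = ((n : ℝ) + 1) ^ 2 * (T v (M + 1) * En (n + 1) M) := by ring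
        _ ≤ ((n : ℝ) + 1) ^ 2 * (En (n + 1) (M + 1) * T v M) := by gcongr
        _ = (((n : ℝ) + 1) ^ 2 * En (n + 1) (M + 1)) * T v M := by ring
        _ ≤ (8 * En n (M + 1)) * T v M := by gcongr
        _ ≤ (8 * (((M : ℝ) + 1) ^ 2 * En (n + 1) M)) * T v M := by gcongr
        _ = (8 * ((M : ℝ) + 1) ^ 2 * T v M) * En (n + 1) M := by ring
    exact le_of_mul_le_mul_right h6 hE

theorem ratio_bound_lin (M : ℕ) : ∃ C : ℝ, 0 < C ∧ ∀ v : List ℕ, Adm v →
    (v.length : ℝ) * T v (M + 1) ≤ C * T v M := by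
  refine ⟨8 * ((M : ℝ) + 1) ^ 2, by positivity, fun v hv => (?_ : _ ≤ _).trans (ratio_bound M hv)⟩
  refine mul_le_mul_of_nonneg_right ?_ (T_nonneg _ _)
  have : v.length ≤ v.length ^ 2 := Nat.le_self_pow (by norm_num) _
  exact_mod_cast this

end HofPers
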