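import Pool.Agent.Lib.MP_301213_nt.Diff
import Pool.Agent.Lib.MP_301213_nt.Tail

/-! MP_301213_nt: persistence theorem, and identification with the usual series. -/

open Filter Topology
open scoped ENNReal

namespace HofPers

/-! ### identification with the multiple series -/

/-- index set of the series, variables larger than `M` -/
abbrev Idx (n M : ℕ) : Type := {m : Fin n → ℕ // StrictMono m ∧ ∀ i, M < m i}

theorem strictMono_cons_iff {n k : ℕ} {m : Fin n → ℕ} :
    StrictMono (Fin.cons k m : Fin (n + 1) → ℕ) ↔ StrictMono m ∧ ∀ i, k < m i := by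
  constructor
  · intro h
    refine ⟨fun i j hij => ?_, fun i => ?_⟩
    · have := h (Fin.succ_lt_succ_iff.2 hij)
      simpa using this
    · have := h (Fin.succ_pos i)
      simpa using this
  · rintro ⟨h1, h2⟩ i j hij
    cases i using Fin.cases with
    | zero =>
      cases j using Fin.cases with
      | zero => exact absurd hij (lt_irrefl _)
      | succ j => simpa using h2 j
    | succ i =>
      cases j using Fin.cases with
      | zero => exact absurd hij (by simp)
      | succ j => simpa using h1 (Fin.succ_lt_succ_iff.1 hij)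

/-- peel off the smallest variable -/
def idxEquiv (n M : ℕ) : Idx (n + 1) M ≃ Σ k : {k : ℕ // M < k}, Idx n k.1 where
  toFun m := ⟨⟨m.1 0, m.2.2 0⟩, ⟨Fin.tail m.1, by
    have h := m.2.1
    rw [← Fin.cons_self_tail m.1] at h
    exact strictMono_cons_iff.1 h⟩⟩
  invFun p := ⟨Fin.cons p.1.1 p.2.1, strictMono_cons_iff.2 p.2.2, fun i => by
    cases i using Fin.cases with
    | zero => simpa using p.1.2
    | succ i =>
      have h1 := p.2.2.2 i
      have h2 := p.1.2
      simp only [Fin.cons_succ]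
      omega⟩
  left_inv m := by
    apply Subtype.ext
    exact Fin.cons_self_tail m.1
  right_inv p := by
    obtain ⟨⟨k, hk⟩, ⟨m, hm⟩⟩ := p
    rfl

theorem tsum_idx : ∀ (l : List ℕ) (M : ℕ),
    ∑' m : Idx l.length M, ∏ i, (((m.1 i : ℕ) : ℝ≥0∞) ^ (l.get i))⁻¹ = TE l M
  | [], M => by
    have : Unique (Idx ([] : List ℕ).length M) :=
      { default := ⟨fun i => i.elim0, fun i => i.elim0, fun i => i.elim0⟩
        uniq := fun m => Subtype.ext (funext fun i => i.elim0) }
    rw [tsum_eq_single (default : Idx ([] : List ℕ).length M)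
      (fun b hb => absurd (Unique.eq_default b) hb)]
    simp [TE]
  | (a :: l), M => by
    have h := (idxEquiv l.length M).symm.tsum_eq
      (fun m : Idx (a :: l).length M => ∏ i, (((m.1 i : ℕ) : ℝ≥0∞) ^ ((a :: l).get i))⁻¹)
    refine h.symm.trans ?_
    rw [ENNReal.tsum_sigma', TE]
    have h2 : ∀ k : {k : ℕ // M < k}, ∑' b : Idx l.length k.1,
        ∏ i, (((((idxEquiv l.length M).symm ⟨k, b⟩).1 i : ℕ) : ℝ≥0∞) ^ ((a :: l).get i))⁻¹ =
        ((k.1 : ℝ≥0∞) ^ a)⁻¹ * TE l k.1 := by
      intro k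
      rw [← tsum_idx l k.1, ← ENNReal.tsum_mul_left]
      refine tsum_congr fun b => ?_
      rw [Fin.prod_univ_succ]
      rfl
    refine (tsum_congr h2).trans ?_
    refine (tsum_subtype {k : ℕ | M < k} (fun k : ℕ => ((k : ℝ≥0∞) ^ a)⁻¹ * TE l k)).trans ?_
    refine tsum_congr fun m => ?_
    unfold kk
    by_cases hm : M < m
    · rw [if_pos hm, Set.indicator_of_mem (show m ∈ {k : ℕ | M < k} from hm)]
    · rw [if_neg hm, Set.indicator_of_notMem (show m ∉ {k : ℕ | M < k} from hm), zero_mul]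

/-- the real series -/
theorem real_tsum (l : List ℕ) :
    ∑' m : {m : Fin l.length → ℕ // StrictMono m ∧ ∀ i, 0 < m i},
      ∏ i, ((m.1 i : ℝ) ^ (l.get i))⁻¹ = T l 0 := by
  have h := tsum_idx l 0
  rw [T, ← h, ENNReal.tsum_toReal_eq]
  · refine tsum_congr fun m => ?_
    rw [ENNReal.toReal_prod]
    refine Finset.prod_congr rfl fun i _ => ?_
    rw [ENNReal.toReal_inv, ENNReal.toReal_pow, ENNReal.toReal_natCast]
  · intro m
    refine ENNReal.prod_ne_top fun i _ => ?_
    rw [Ne, ENNReal.inv_eq_top, pow_eq_zero_iff']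
    rintro ⟨h1, _⟩
    have h2 : m.1 i = 0 := by exact_mod_cast h1
    have h3 := m.2.2 i
    omega

/-! ### convolution over the reals -/

theorem adm_append {u v : List ℕ} (hu : Adm u) (hv : Adm v) : Adm (u ++ v) := by
  intro a ha
  rcases List.mem_append.1 ha with h | h
  · exact hu a h
  · exact hv a h

theorem adm_reverse {u : List ℕ} (hu : Adm u) : Adm u.reverse := fun a ha =>
  hu a (List.mem_reverse.1 ha)

theorem conv_real {u v : List ℕ} (hu : Adm u) (hv : Adm v) :
    (Summable fun M : ℕ => aR u.reverse M * T v M) ∧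
    T (u ++ v) 0 = ∑' M : ℕ, aR u.reverse M * T v M := by
  have h := conv_eq u.reverse v
  rw [List.reverse_reverse] at h
  have hne : TE (u ++ v) 0 ≠ ∞ := TE_ne_top (adm_append hu hv) 0
  have hterm : ∀ M : ℕ, (ENNReal.ofReal (aR u.reverse M) * TE v M).toReal =
      aR u.reverse M * T v M := by
    intro M
    rw [ENNReal.toReal_mul, ENNReal.toReal_ofReal (aR_nonneg _ _), T]
  constructor
  · rw [← h] at hne
    have := ENNReal.summable_toReal hne
    simpa only [hterm] using this
  · rw [T, ← h, ENNReal.tsum_toReal_eq]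
    · exact tsum_congr hterm
    · intro M
      exact ENNReal.mul_ne_top ENNReal.ofReal_ne_top (TE_ne_top hv M)

theorem summable_aR {u : List ℕ} (hu : Adm u) : Summable fun M : ℕ => aR u.reverse M := by
  have h := (conv_real (u := u) (v := []) hu (by intro a ha; simp at ha)).1
  simpa [T_nil] using h

/-! ### the two systems -/

theorem sys_sR : Sys sR 1 1 (fun M => M + 1) 1 where
  dir := Or.inl ⟨rfl, rfl⟩
  nil := sR_nil
  he := fun M _ => by push_cast; rfl
  hκ := le_rfl
  step := fun M _ a l _ => sR_cons a l M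

theorem sys_T : Sys T (-1) 0 (fun M => M - 1) 2 where
  dir := Or.inr ⟨rfl, rfl⟩
  nil := T_nil
  he := fun M hM => by rw [Nat.cast_sub hM, Nat.cast_one]; ring
  hκ := by norm_num
  step := fun M hM a l h => by
    obtain ⟨k, rfl⟩ : ∃ k, M = k + 1 := ⟨M - 1, by omega⟩
    rw [Nat.add_sub_cancel, T_step (show Adm (a :: l) from h) k, add_zero]
    push_cast
    ring

/-! ### long words on the right -/

theorem exists_A_ne {c : List ℕ →₀ ℝ} (hc : c ≠ 0) (hadm : ∀ w ∈ c.support, Adm w) :
    ∃ M, (c.sum fun w x => x * aR w.reverse M) ≠ 0 := by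
  classical
  by_contra hno
  push Not at hno
  set d : List ℕ →₀ ℝ := c.mapDomain List.reverse with hd
  have hinj : Function.Injective (List.reverse : List ℕ → List ℕ) := List.reverse_injective
  have hdne : d ≠ 0 := by
    intro h
    exact hc (Finsupp.mapDomain_injective hinj (by rw [← hd, h, Finsupp.mapDomain_zero]))
  have hdadm : ∀ w ∈ d.support, ∀ a ∈ w, 1 ≤ a := by
    intro w hw a ha
    have h1 := Finsupp.mapDomain_support hw
    obtain ⟨w', hw', rfl⟩ := Finset.mem_image.1 h1
    have := hadm w' hw' a (List.mem_reverse.1 ha)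
    omega
  obtain ⟨M, hM⟩ := (lin_sign sys_sR hdne hdadm).ne_zero.exists
  apply hM
  rw [hd, Finsupp.sum_mapDomain_index_inj hinj]
  simp only [sR, Finset.mul_sum, Finsupp.sum]
  rw [Finset.sum_comm]
  refine Finset.sum_eq_zero fun j _ => ?_
  have := hno j
  rw [Finsupp.sum] at this
  exact this

/-- all values on long words have the same strict sign -/
def SameSign (g : List ℕ → ℝ) : Prop :=
  ∃ N : ℕ, (∀ v : List ℕ, Adm v → N ≤ v.length → 0 < g v) ∨
    (∀ v : List ℕ, Adm v → N ≤ v.length → g v < 0)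

/-- the coefficient function of a family -/
noncomputable def Af (c : List ℕ →₀ ℝ) (M : ℕ) : ℝ := c.sum fun w x => x * aR w.reverse M

theorem summable_Af {c : List ℕ →₀ ℝ} (hadm : ∀ w ∈ c.support, Adm w) : Summable (Af c) := by
  have : Af c = fun M => ∑ w ∈ c.support, c w * aR w.reverse M := rfl
  rw [this]
  exact summable_sum fun w hw => (summable_aR (hadm w hw)).mul_left _

theorem rest_bound {c : List ℕ →₀ ℝ} (hadm : ∀ w ∈ c.support, Adm w) {M0 : ℕ}
    (hmin : ∀ M < M0, Af c M = 0) {v : List ℕ} (hv : Adm v) :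
    |(c.sum fun w x => x * T (w ++ v) 0) - Af c M0 * T v M0| ≤
      (∑' M, |Af c M|) * T v (M0 + 1) := by
  have hterm : ∀ w ∈ c.support, (Summable fun M => c w * (aR w.reverse M * T v M)) ∧
      c w * T (w ++ v) 0 = ∑' M, c w * (aR w.reverse M * T v M) := by
    intro w hw
    obtain ⟨h1, h2⟩ := conv_real (hadm w hw) hv
    exact ⟨h1.mul_left _, by rw [h2, tsum_mul_left]⟩
  have htot : (c.sum fun w x => x * T (w ++ v) 0) = ∑' M, Af c M * T v M := by
    rw [Finsupp.sum, Finset.sum_congr rfl fun w hw => (hterm w hw).2,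
      ← Summable.tsum_finsetSum fun w hw => (hterm w hw).1]
    refine tsum_congr fun M => ?_
    simp only [Af, Finsupp.sum, Finset.sum_mul]
    exact Finset.sum_congr rfl fun w _ => by ring
  have hATsum : Summable fun M => Af c M * T v M := by
    have : (fun M => Af c M * T v M) =
        fun M => ∑ w ∈ c.support, c w * (aR w.reverse M * T v M) := by
      funext M
      simp only [Af, Finsupp.sum, Finset.sum_mul]
      exact Finset.sum_congr rfl fun w _ => by ring
    rw [this]
    exact summable_sum fun w hw => (hterm w hw).1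
  rw [htot, hATsum.tsum_eq_add_tsum_ite M0, add_sub_cancel_left]
  have hAabs : Summable fun M => |Af c M| := (summable_Af hadm).abs
  have hb : ∀ M, ‖(if M = M0 then 0 else Af c M * T v M)‖ ≤ |Af c M| * T v (M0 + 1) := by
    intro M
    split_ifs with h
    · rw [norm_zero]
      exact mul_nonneg (abs_nonneg _) (T_nonneg _ _)
    · rcases lt_or_gt_of_ne h with h1 | h1
      · rw [hmin M h1, zero_mul, norm_zero]
        exact mul_nonneg (abs_nonneg _) (T_nonneg _ _)
      · rw [Real.norm_eq_abs, abs_mul, abs_of_nonneg (T_nonneg v M)]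
        exact mul_le_mul_of_nonneg_left (T_anti hv h1) (abs_nonneg _)
  have h2 := tsum_of_norm_bounded ((hAabs.mul_right (T v (M0 + 1))).hasSum) hb
  rw [tsum_mul_right] at h2
  exact h2

theorem exists_first {c : List ℕ →₀ ℝ} (hc : c ≠ 0) (hadm : ∀ w ∈ c.support, Adm w) :
    ∃ M0, Af c M0 ≠ 0 ∧ ∀ M < M0, Af c M = 0 := by
  classical
  have hex := exists_A_ne hc hadm
  exact ⟨Nat.find hex, Nat.find_spec hex, fun M hM => by
    by_contra h; exact Nat.find_min hex hM h⟩

theorem right_long {c : List ℕ →₀ ℝ} (hc : c ≠ 0) (hadm : ∀ w ∈ c.support, Adm w) :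
    SameSign fun v => c.sum fun w x => x * T (w ++ v) 0 := by
  classical
  obtain ⟨M0, hM0, hmin⟩ := exists_first hc hadm
  have hAabs : Summable fun M => |Af c M| := (summable_Af hadm).abs
  set S : ℝ := ∑' M, |Af c M| with hS
  have hSpos : 0 < S := by
    have := hAabs.le_tsum M0 (fun j _ => abs_nonneg _)
    exact lt_of_lt_of_le (abs_pos.2 hM0) this
  obtain ⟨C, hC, hratio⟩ := ratio_bound_lin M0
  obtain ⟨N, hN⟩ := exists_nat_gt (S * C / |Af c M0|)
  have hmain : ∀ v : List ℕ, Adm v → N + 1 ≤ v.length →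
      |(c.sum fun w x => x * T (w ++ v) 0) - Af c M0 * T v M0| < |Af c M0 * T v M0| := by
    intro v hv hlen
    have hTM := T_pos hv M0
    have h3 := hratio v hv
    have h4 : S * C < |Af c M0| * v.length := by
      have h5 : (N : ℝ) < v.length := by exact_mod_cast hlen
      have h6 := hN.trans h5
      rw [div_lt_iff₀ (abs_pos.2 hM0)] at h6
      linarith
    have hlen0 : (0 : ℝ) < v.length := by
      have : 0 < v.length := by omega
      exact_mod_cast this
    refine lt_of_le_of_lt (rest_bound hadm hmin hv) ?_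
    rw [abs_mul, abs_of_pos hTM]
    have h7 : (v.length : ℝ) * (S * T v (M0 + 1)) < v.length * (|Af c M0| * T v M0) := by
      calc (v.length : ℝ) * (S * T v (M0 + 1)) = S * (v.length * T v (M0 + 1)) := by ring
        _ ≤ S * (C * T v M0) := mul_le_mul_of_nonneg_left h3 hSpos.le
        _ = S * C * T v M0 := by ring
        _ < |Af c M0| * v.length * T v M0 := mul_lt_mul_of_pos_right h4 hTM
        _ = v.length * (|Af c M0| * T v M0) := by ring
    exact lt_of_mul_lt_mul_left h7 hlen0.le
  refine ⟨N + 1, ?_⟩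
  rcases lt_or_gt_of_ne hM0 with hneg | hpos
  · right
    intro v hv hlen
    have h1 := hmain v hv hlen
    have h2 : Af c M0 * T v M0 < 0 := mul_neg_of_neg_of_pos hneg (T_pos hv M0)
    rw [abs_of_neg h2, abs_lt] at h1
    show (c.sum fun w x => x * T (w ++ v) 0) < 0
    linarith [h1.1, h1.2]
  · left
    intro v hv hlen
    have h1 := hmain v hv hlen
    have h2 : 0 < Af c M0 * T v M0 := mul_pos hpos (T_pos hv M0)
    rw [abs_of_pos h2, abs_lt] at h1
    show 0 < (c.sum fun w x => x * T (w ++ v) 0)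
    linarith [h1.1, h1.2]

/-! ### heights of integer relations -/

theorem aR_rat : ∀ (l : List ℕ) (M : ℕ), ∃ q : ℚ, aR l M = q
  | [], M => by
    simp only [aR]
    split_ifs
    · exact ⟨1, by simp⟩
    · exact ⟨0, by simp⟩
  | (a :: l), M => by
    choose q hq using aR_rat l
    refine ⟨((M : ℚ) ^ a)⁻¹ * ∑ j ∈ Finset.range M, q j, ?_⟩
    simp only [aR, hq]
    push_cast
    rfl

theorem exists_den (W : Finset (List ℕ)) (M1 : ℕ) :
    ∃ D : ℕ, 0 < D ∧ ∀ w ∈ W, ∀ M < M1, ∃ z : ℤ, (D : ℝ) * aR w M = z := by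
  classical
  choose q hq using aR_rat
  refine ⟨∏ p ∈ W ×ˢ Finset.range M1, (q p.1 p.2).den,
    Finset.prod_pos fun p _ => (q p.1 p.2).den_pos, fun w hw M hM => ?_⟩
  have hmem : (w, M) ∈ W ×ˢ Finset.range M1 :=
    Finset.mem_product.2 ⟨hw, Finset.mem_range.2 hM⟩
  obtain ⟨e, he⟩ := Finset.dvd_prod_of_mem (fun p : List ℕ × ℕ => (q p.1 p.2).den) hmem
  refine ⟨e * (q w M).num, ?_⟩
  rw [he, hq w M]
  have h1 : ((q w M).den : ℚ) * q w M = (q w M).num := by
    rw [mul_comm]; exact Rat.mul_den_eq_num _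
  have h2 : ((q w M).den : ℝ) * (q w M : ℝ) = (q w M).num := by exact_mod_cast h1
  push_cast
  rw [mul_right_comm, h2, mul_comm]

/-- a bound for the first nonvanishing argument -/
theorem exists_M1 (W : Finset (List ℕ)) (hW : ∀ w ∈ W, Adm w) :
    ∃ M1 : ℕ, ∀ c : List ℕ →₀ ℝ, c ≠ 0 → c.support ⊆ W → ∃ M < M1, Af c M ≠ 0 := by
  classical
  let L : ℕ → ((W → ℝ) →ₗ[ℝ] ℝ) := fun M =>
    ∑ w : W, (aR w.1.reverse M) • LinearMap.proj w
  let K : ℕ → Submodule ℝ (W → ℝ) := fun M => ⨅ j ∈ Finset.range M, LinearMap.ker (L j)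
  have hanti : Antitone K := by
    intro a b hab
    refine le_iInf₂ fun j hj => ?_
    exact iInf₂_le j (Finset.mem_range.2 (lt_of_lt_of_le (Finset.mem_range.1 hj) hab))
  obtain ⟨n, hn⟩ := (monotone_stabilizes_iff_artinian (R := ℝ) (M := W → ℝ)).2 inferInstance
    ⟨fun M => OrderDual.toDual (K M), fun a b hab => hanti hab⟩
  refine ⟨n, fun c hc hsup => ?_⟩
  by_contra hno
  push Not at hno
  let x : W → ℝ := fun w => c w
  have hL : ∀ M, L M x = Af c M := by
    intro M
    simp only [L, x, LinearMap.sum_apply, LinearMap.smul_apply, LinearMap.proj_apply, smul_eq_mul,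
      Af, Finsupp.sum]
    rw [Finset.sum_coe_sort W (fun w => aR w.reverse M * c w)]
    symm
    rw [Finset.sum_subset hsup]
    · exact Finset.sum_congr rfl fun w _ => mul_comm _ _
    · intro w _ hw
      rw [Finsupp.notMem_support_iff.1 hw, zero_mul]
  have hx : x ∈ K n := by
    simp only [K, Submodule.mem_iInf, LinearMap.mem_ker]
    intro j hj
    rw [hL]
    exact hno j (Finset.mem_range.1 hj)
  obtain ⟨M, hM⟩ := exists_A_ne hc (fun w hw => hW w (hsup hw))
  have hle : n ≤ max n (M + 1) := le_max_left _ _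
  have heq : K n = K (max n (M + 1)) := hn _ hle
  rw [heq] at hx
  simp only [K, Submodule.mem_iInf, LinearMap.mem_ker] at hx
  have := hx M (Finset.mem_range.2 (lt_of_lt_of_le (Nat.lt_succ_self M) (le_max_right _ _)))
  rw [hL] at this
  exact hM this

/-- integer relations among the values with a common suffix have large height -/
theorem height_bound (W : Finset (List ℕ)) (hW : ∀ w ∈ W, Adm w) :
    ∃ δ : ℝ, 0 < δ ∧ ∀ v : List ℕ, Adm v → ∀ c : List ℕ →₀ ℤ, c ≠ 0 → c.support ⊆ W →
      (∑ w ∈ c.support, (c w : ℝ) * T (w ++ v) 0) = 0 →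
      ∃ w ∈ W, δ * (v.length : ℝ) ^ 2 ≤ |(c w : ℝ)| := by
  classical
  obtain ⟨M1, hM1⟩ := exists_M1 W hW
  obtain ⟨D, hD, hDz⟩ := exists_den (W.image List.reverse) M1
  set Cs : ℝ := 8 * ((M1 : ℝ) + 1) ^ 2 with hCs
  have hCspos : 0 < Cs := by positivity
  set Sw : ℝ := 1 + ∑ w ∈ W, ∑' M, aR w.reverse M with hSw
  have hSwpos : 0 < Sw := by
    have h0 : 0 ≤ ∑ w ∈ W, ∑' M, aR w.reverse M :=
      Finset.sum_nonneg fun w _ => tsum_nonneg fun M => aR_nonneg _ M
    linarith
  have hD' : (0 : ℝ) < D := by exact_mod_cast hD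
  refine ⟨(Sw * Cs * D)⁻¹, by positivity, fun v hv c hc hsup hrel => ?_⟩
  set d : List ℕ →₀ ℝ := c.mapRange (fun z : ℤ => (z : ℝ)) (by simp) with hd
  have hdsup : d.support = c.support :=
    Finsupp.support_mapRange_of_injective _ _ Int.cast_injective
  have hdc : ∀ w, d w = (c w : ℝ) := fun w => by rw [hd, Finsupp.mapRange_apply]
  have hdne : d ≠ 0 := by
    intro h
    apply hc
    rw [← Finsupp.support_eq_empty, ← hdsup, h, Finsupp.support_zero]
  have hdadm : ∀ w ∈ d.support, Adm w := fun w hw => hW w (hsup (hdsup ▸ hw))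
  have hWne : W.Nonempty := by
    have : c.support.Nonempty := Finsupp.support_nonempty_iff.2 hc
    exact this.mono hsup
  obtain ⟨w1, hw1, hmax⟩ := W.exists_max_image (fun w => |(c w : ℝ)|) hWne
  refine ⟨w1, hw1, ?_⟩
  set H : ℝ := |(c w1 : ℝ)| with hH
  obtain ⟨M0, hM0, hmin⟩ := exists_first hdne hdadm
  have hM0lt : M0 < M1 := by
    obtain ⟨M, hM, hne⟩ := hM1 d hdne (by rw [hdsup]; exact hsup)
    by_contra hge
    exact hne (hmin M (by omega))
  -- lower bound for the leading coefficient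
  have hlow : 1 ≤ (D : ℝ) * |Af d M0| := by
    have hz : ∃ z : ℤ, (D : ℝ) * Af d M0 = z := by
      have h1 : ∀ w ∈ d.support, ∃ z : ℤ, (D : ℝ) * aR w.reverse M0 = z := fun w hw =>
        hDz _ (Finset.mem_image_of_mem _ (hsup (hdsup ▸ hw))) M0 hM0lt
      choose! z hz using h1
      refine ⟨∑ w ∈ d.support, c w * z w, ?_⟩
      simp only [Af, Finsupp.sum, Finset.mul_sum]
      push_cast
      refine Finset.sum_congr rfl fun w hw => ?_
      rw [← hz w hw, hdc]; ring
    obtain ⟨z, hz⟩ := hz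
    have hzne : z ≠ 0 := by
      rintro rfl
      rw [Int.cast_zero] at hz
      rcases mul_eq_zero.1 hz with h | h
      · exact hD'.ne' h
      · exact hM0 h
    have h2 : (1 : ℝ) ≤ |(z : ℝ)| := by
      have := Int.one_le_abs hzne
      exact_mod_cast this
    rw [← hz, abs_mul, abs_of_pos hD'] at h2
    exact h2
  -- upper bound for the total mass
  have hS : ∑' M, |Af d M| ≤ H * Sw := by
    have hb : ∀ M, |Af d M| ≤ ∑ w ∈ W, H * aR w.reverse M := by
      intro M
      have e1 : Af d M = ∑ w ∈ W, d w * aR w.reverse M := by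
        simp only [Af, Finsupp.sum]
        refine Finset.sum_subset (by rw [hdsup]; exact hsup) fun w _ hw => ?_
        rw [Finsupp.notMem_support_iff.1 hw, zero_mul]
      rw [e1]
      refine (Finset.abs_sum_le_sum_abs _ _).trans (Finset.sum_le_sum fun w hw => ?_)
      rw [abs_mul, abs_of_nonneg (aR_nonneg _ _), hdc]
      exact mul_le_mul_of_nonneg_right (hmax w hw) (aR_nonneg _ _)
    have hsm : ∀ w ∈ W, Summable fun M => H * aR w.reverse M := fun w hw =>
      (summable_aR (hW w hw)).mul_left _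
    refine (Summable.tsum_le_tsum hb (summable_Af hdadm).abs (summable_sum hsm)).trans ?_
    rw [Summable.tsum_finsetSum hsm]
    simp only [tsum_mul_left]
    rw [← Finset.mul_sum]
    refine mul_le_mul_of_nonneg_left ?_ (abs_nonneg _)
    rw [hSw]; linarith
  have hrest := rest_bound hdadm hmin hv
  have hrel' : (d.sum fun w x => x * T (w ++ v) 0) = 0 := by
    rw [Finsupp.sum, hdsup, ← hrel]
    exact Finset.sum_congr rfl fun w _ => by rw [hdc]
  have hTM := T_pos hv M0
  rw [hrel', zero_sub, abs_neg, abs_mul, abs_of_pos hTM] at hrest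
  have h3 : ((v.length : ℝ)) ^ 2 * T v (M0 + 1) ≤ Cs * T v M0 := by
    refine (ratio_bound M0 hv).trans (mul_le_mul_of_nonneg_right ?_ hTM.le)
    have : (M0 : ℝ) ≤ M1 := by exact_mod_cast hM0lt.le
    rw [hCs]
    gcongr
  have hH0 : 0 ≤ H := abs_nonneg _
  have h4 : (v.length : ℝ) ^ 2 * |Af d M0| * T v M0 ≤ H * Sw * Cs * T v M0 := by
    calc (v.length : ℝ) ^ 2 * |Af d M0| * T v M0 = (v.length : ℝ) ^ 2 * (|Af d M0| * T v M0) := by
          ring
      _ ≤ (v.length : ℝ) ^ 2 * ((∑' M, |Af d M|) * T v (M0 + 1)) :=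
        mul_le_mul_of_nonneg_left hrest (by positivity)
      _ = (∑' M, |Af d M|) * ((v.length : ℝ) ^ 2 * T v (M0 + 1)) := by ring
      _ ≤ (H * Sw) * (Cs * T v M0) := by
        refine mul_le_mul hS h3 ?_ (by positivity)
        exact mul_nonneg (by positivity) (T_nonneg _ _)
      _ = H * Sw * Cs * T v M0 := by ring
  have h5 := le_of_mul_le_mul_right h4 hTM
  have h6 : (v.length : ℝ) ^ 2 ≤ H * (Sw * Cs * D) := by
    calc (v.length : ℝ) ^ 2 = (v.length : ℝ) ^ 2 * 1 := by ring
      _ ≤ (v.length : ℝ) ^ 2 * (D * |Af d M0|) := by gcongr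
      _ = D * ((v.length : ℝ) ^ 2 * |Af d M0|) := by ring
      _ ≤ D * (H * Sw * Cs) := by gcongr
      _ = H * (Sw * Cs * D) := by ring
  rw [inv_mul_le_iff₀ (by positivity)]
  linarith

/-! ### long words on the left -/

theorem left_pos {c : List ℕ →₀ ℝ} (hadm : ∀ w ∈ c.support, Adm w)
    (h : ∀ᶠ M in atTop, 0 < c.sum fun w x => x * T w M) :
    ∃ N : ℕ, ∀ v : List ℕ, Adm v → N ≤ v.length →
      0 < (c.sum fun w x => x * T (v ++ w) 0) := by
  classical
  obtain ⟨N, hN⟩ := eventually_atTop.1 h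
  refine ⟨N, fun v hv hlen => ?_⟩
  set B : ℕ → ℝ := fun M => c.sum fun w x => x * T w M with hB
  have hterm : ∀ w ∈ c.support, (Summable fun M => c w * (aR v.reverse M * T w M)) ∧
      c w * T (v ++ w) 0 = ∑' M, c w * (aR v.reverse M * T w M) := by
    intro w hw
    obtain ⟨h1, h2⟩ := conv_real hv (hadm w hw)
    exact ⟨h1.mul_left _, by rw [h2, tsum_mul_left]⟩
  have hfun : (fun M => aR v.reverse M * B M) =
      fun M => ∑ w ∈ c.support, c w * (aR v.reverse M * T w M) := by
    funext M
    rw [hB]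
    simp only [Finsupp.sum, Finset.mul_sum]
    exact Finset.sum_congr rfl fun w _ => by ring
  have htot : (c.sum fun w x => x * T (v ++ w) 0) = ∑' M, aR v.reverse M * B M := by
    rw [Finsupp.sum, Finset.sum_congr rfl fun w hw => (hterm w hw).2,
      ← Summable.tsum_finsetSum fun w hw => (hterm w hw).1, hfun]
  have hsum : Summable fun M => aR v.reverse M * B M := by
    rw [hfun]
    exact summable_sum fun w hw => (hterm w hw).1
  have hnn : ∀ M, 0 ≤ aR v.reverse M * B M := by
    intro M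
    rcases lt_or_ge M v.reverse.length with h1 | h1
    · rw [aR_zero_of_lt _ _ h1, zero_mul]
    · rw [List.length_reverse] at h1
      exact mul_nonneg (aR_nonneg _ _) (hN M (hlen.trans h1)).le
  rw [htot]
  refine hsum.tsum_pos hnn v.length (mul_pos ?_ (hN _ hlen))
  have := aR_pos v.reverse
  rwa [List.length_reverse] at this

theorem left_long {c : List ℕ →₀ ℝ} (hc : c ≠ 0) (hadm : ∀ w ∈ c.support, Adm w) :
    SameSign fun v => c.sum fun w x => x * T (v ++ w) 0 := by
  rcases lin_sign sys_T hc hadm with h | h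
  · obtain ⟨N, hN⟩ := left_pos hadm h
    exact ⟨N, Or.inl hN⟩
  · have hadm' : ∀ w ∈ (-c).support, Adm w := by rw [Finsupp.support_neg]; exact hadm
    have hneg : ∀ g : List ℕ → ℝ, ((-c).sum fun w x => x * g w) = -(c.sum fun w x => x * g w) := by
      intro g
      rw [Finsupp.sum, Finsupp.sum, Finsupp.support_neg, ← Finset.sum_neg_distrib]
      exact Finset.sum_congr rfl fun w _ => by simp
    obtain ⟨N, hN⟩ := left_pos hadm' (by
      filter_upwards [h] with M hM
      rw [hneg]
      linarith)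
    refine ⟨N, Or.inr fun v hv hl => ?_⟩
    have := hN v hv hl
    rw [hneg] at this
    show (c.sum fun w x => x * T (v ++ w) 0) < 0
    linarith

end HofPers
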