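import Mathlib

/-! MP_301213_nt: eventual sign of polynomial combinations of nested sums (difference field
argument). -/

open Filter Topology Polynomial

namespace HofPers

set_option linter.unusedVariables false

/-! ### the pole argument -/

theorem no_pole_coprime {A B H : ℝ[X]} {a : ℕ} (ha : a ≠ 0) (hB : B ≠ 0) (hcop : IsCoprime A B)
    (hH : H.eval (-1) ≠ 0)
    (h : (X + 1) ^ a * (B * A.comp (X + 1) - B.comp (X + 1) * A) = H * B * B.comp (X + 1)) :
    False := by
  have hev : ∀ x : ℝ, (x + 1) ^ a * (B.eval x * A.eval (x + 1) - B.eval (x + 1) * A.eval x) =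
      H.eval x * B.eval x * B.eval (x + 1) := by
    intro x
    have := congrArg (fun p : ℝ[X] => p.eval x) h
    simpa [eval_comp] using this
  have hA : ∀ x : ℝ, B.eval x = 0 → A.eval x ≠ 0 := by
    intro x hx hAx
    obtain ⟨u, v, huv⟩ := hcop
    have := congrArg (fun p : ℝ[X] => p.eval x) huv
    simp [hx, hAx] at this
  set Z : Set ℤ := {n | B.eval (n : ℝ) = 0} with hZ
  have hfin : Z.Finite := by
    have h1 : {x : ℝ | B.IsRoot x}.Finite := Polynomial.finite_setOfPred_isRoot hB
    exact h1.preimage (Int.cast_injective.injOn)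
  have hne : Z.Nonempty := by
    have h1 := hev (-1)
    rw [show (-1 : ℝ) + 1 = 0 by norm_num, zero_pow ha, zero_mul] at h1
    rcases mul_eq_zero.1 h1.symm with h2 | h2
    · rcases mul_eq_zero.1 h2 with h3 | h3
      · exact absurd h3 hH
      · exact ⟨-1, by simpa [hZ] using h3⟩
    · exact ⟨0, by simpa [hZ] using h2⟩
  obtain ⟨α, hα, hmax⟩ := Set.exists_max_image Z id hfin hne
  obtain ⟨β, hβ, hmin⟩ := Set.exists_min_image Z id hfin hne
  simp only [id] at hmax hmin
  have hα1 : B.eval ((α : ℝ) + 1) ≠ 0 := by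
    intro h0
    have : α + 1 ∈ Z := by simpa [hZ] using h0
    have := hmax _ this
    omega
  have hβ1 : B.eval ((β : ℝ) - 1) ≠ 0 := by
    intro h0
    have : β - 1 ∈ Z := by simpa [hZ] using h0
    have := hmin _ this
    omega
  have hαm : α = -1 := by
    have h1 := hev α
    have h2 : B.eval (α : ℝ) = 0 := hα
    rw [h2, zero_mul, zero_sub, mul_zero, zero_mul] at h1
    rcases mul_eq_zero.1 h1 with h3 | h3
    · have h4 := pow_eq_zero_iff ha |>.1 h3
      have : ((α + 1 : ℤ) : ℝ) = 0 := by push_cast; exact h4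
      have := Int.cast_eq_zero.1 this
      omega
    · rw [neg_eq_zero] at h3
      rcases mul_eq_zero.1 h3 with h4 | h4
      · exact absurd h4 hα1
      · exact absurd h4 (hA _ h2)
  have hβm : β = 0 := by
    have h1 := hev ((β : ℝ) - 1)
    have h2 : B.eval (β : ℝ) = 0 := hβ
    rw [sub_add_cancel, h2, zero_mul, mul_zero, sub_zero] at h1
    rcases mul_eq_zero.1 h1 with h3 | h3
    · have h4 := pow_eq_zero_iff ha |>.1 h3
      exact_mod_cast h4
    · rcases mul_eq_zero.1 h3 with h4 | h4
      · exact absurd h4 hβ1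
      · exact absurd h4 (hA _ h2)
  have := hmin α hα
  omega

theorem comp_X_add_C_ne_zero {P : ℝ[X]} (hP : P ≠ 0) (e : ℝ) : P.comp (X + C e) ≠ 0 := by
  intro h
  apply hP
  have := congrArg (fun q : ℝ[X] => q.comp (X - C e)) h
  simpa [comp_assoc] using this

theorem no_pole {P Q H : ℝ[X]} {a : ℕ} (ha : a ≠ 0) (hP : P ≠ 0)
    (hH : H.eval (-1) ≠ 0)
    (h : (X + 1) ^ a * (P * Q.comp (X + 1) - P.comp (X + 1) * Q) = H * P * P.comp (X + 1)) :
    False := by
  classical
  obtain ⟨g, B, A, hg, hPg, hQg, hcop⟩ : ∃ g B A : ℝ[X], g ≠ 0 ∧ P = g * B ∧ Q = g * A ∧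
      IsCoprime A B := by
    have hg0 : EuclideanDomain.gcd Q P ≠ 0 := fun h => hP (EuclideanDomain.gcd_eq_zero_iff.1 h).2
    have e1 := (EuclideanDomain.mul_div_cancel' hg0 (EuclideanDomain.gcd_dvd_right Q P)).symm
    have e2 := (EuclideanDomain.mul_div_cancel' hg0 (EuclideanDomain.gcd_dvd_left Q P)).symm
    refine ⟨EuclideanDomain.gcd Q P, P / EuclideanDomain.gcd Q P, Q / EuclideanDomain.gcd Q P,
      hg0, e1, e2, EuclideanDomain.gcdA Q P, EuclideanDomain.gcdB Q P, ?_⟩
    have e3 := EuclideanDomain.gcd_eq_gcd_ab Q P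
    refine mul_left_cancel₀ hg0 ?_
    calc EuclideanDomain.gcd Q P * (EuclideanDomain.gcdA Q P * (Q / EuclideanDomain.gcd Q P) +
          EuclideanDomain.gcdB Q P * (P / EuclideanDomain.gcd Q P))
        = (EuclideanDomain.gcd Q P * (Q / EuclideanDomain.gcd Q P)) * EuclideanDomain.gcdA Q P +
          (EuclideanDomain.gcd Q P * (P / EuclideanDomain.gcd Q P)) *
            EuclideanDomain.gcdB Q P := by ring
      _ = Q * EuclideanDomain.gcdA Q P + P * EuclideanDomain.gcdB Q P := by rw [← e1, ← e2]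
      _ = EuclideanDomain.gcd Q P * 1 := by rw [← e3, mul_one]
  have hB : B ≠ 0 := fun h0 => hP (by rw [hPg, h0, mul_zero])
  have hg1 : g.comp (X + 1) ≠ 0 := by
    have := comp_X_add_C_ne_zero hg 1
    simpa using this
  refine no_pole_coprime ha hB hcop hH ?_
  have h2 : (g * g.comp (X + 1)) * ((X + 1) ^ a * (B * A.comp (X + 1) - B.comp (X + 1) * A)) =
      (g * g.comp (X + 1)) * (H * B * B.comp (X + 1)) := by
    rw [hPg, hQg, mul_comp, mul_comp] at h
    linear_combination h
  exact mul_left_cancel₀ (mul_ne_zero hg hg1) h2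

/-- the two directions: `(ε, τ) = (1, 1)` or `(-1, 0)` -/
def Dir (ε τ : ℝ) : Prop := (ε = 1 ∧ τ = 1) ∨ (ε = -1 ∧ τ = 0)

theorem no_pole_dir {ε τ : ℝ} (hd : Dir ε τ) {P Q H : ℝ[X]} {a : ℕ} (ha : a ≠ 0) (hP : P ≠ 0)
    (hH : H.eval (-τ) ≠ 0)
    (h : (X + C τ) ^ a * (P * Q.comp (X + C ε) - P.comp (X + C ε) * Q) =
      H * P * P.comp (X + C ε)) : False := by
  rcases hd with ⟨rfl, rfl⟩ | ⟨rfl, rfl⟩
  · simp only [map_one] at h
    exact no_pole ha hP hH h
  · have h1 := congrArg (fun p : ℝ[X] => p.comp (X + 1)) h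
    simp only [map_neg, map_one, map_zero, add_zero, mul_comp, sub_comp, pow_comp, X_comp,
      comp_assoc, add_comp, neg_comp, one_comp, add_neg_cancel_right, comp_X] at h1
    refine no_pole (P := P) (Q := Q) (H := -H.comp (X + 1)) ha hP ?_ ?_
    · simpa [eval_comp] using hH
    · linear_combination -h1

theorem prop_of_shift_one {P R : ℝ[X]} (hP : P ≠ 0)
    (h : P * R.comp (X + 1) = P.comp (X + 1) * R) : ∃ k : ℝ, R = C k * P := by
  have hev : ∀ x : ℝ, P.eval x * R.eval (x + 1) = P.eval (x + 1) * R.eval x := by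
    intro x
    have := congrArg (fun p : ℝ[X] => p.eval x) h
    simpa [eval_comp] using this
  have hfin : {x : ℝ | P.IsRoot x}.Finite := Polynomial.finite_setOfPred_isRoot hP
  obtain ⟨b, hb⟩ := hfin.bddAbove
  obtain ⟨M0, hM0⟩ := exists_nat_gt b
  have hne : ∀ M : ℕ, M0 ≤ M → P.eval (M : ℝ) ≠ 0 := by
    intro M hM h0
    have h1 := hb (show (M : ℝ) ∈ {x : ℝ | P.IsRoot x} from h0)
    have h2 : (M0 : ℝ) ≤ M := by exact_mod_cast hM
    linarith
  set k : ℝ := R.eval (M0 : ℝ) / P.eval (M0 : ℝ) with hk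
  have hconst : ∀ M : ℕ, M0 ≤ M → R.eval (M : ℝ) = k * P.eval (M : ℝ) := by
    intro M hM
    induction M, hM using Nat.le_induction with
    | base => rw [hk, div_mul_cancel₀ _ (hne M0 le_rfl)]
    | succ M hM IH =>
      have h1 := hev M
      rw [IH] at h1
      have h2 := hne M hM
      have h3 : P.eval (M : ℝ) * (R.eval ((M : ℝ) + 1) - k * P.eval ((M : ℝ) + 1)) = 0 := by
        linear_combination h1
      rcases mul_eq_zero.1 h3 with h4 | h4
      · exact absurd h4 h2
      · push_cast; linarith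
  refine ⟨k, Polynomial.eq_of_infinite_eval_eq _ _ ?_⟩
  have hinf : (Set.range fun M : ℕ => ((M + M0 : ℕ) : ℝ)).Infinite :=
    Set.infinite_range_of_injective fun a b hab => by
      have : (a + M0 : ℕ) = b + M0 := by exact_mod_cast hab
      omega
  refine hinf.mono ?_
  rintro _ ⟨M, rfl⟩
  have := hconst (M + M0) (Nat.le_add_left _ _)
  simpa using this

theorem prop_of_shift {ε τ : ℝ} (hd : Dir ε τ) {P R : ℝ[X]} (hP : P ≠ 0)
    (h : P * R.comp (X + C ε) = P.comp (X + C ε) * R) : ∃ k : ℝ, R = C k * P := by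
  rcases hd with ⟨rfl, rfl⟩ | ⟨rfl, rfl⟩
  · simp only [map_one] at h
    exact prop_of_shift_one hP h
  · have h1 := congrArg (fun p : ℝ[X] => p.comp (X + 1)) h
    simp only [map_neg, map_one, mul_comp, comp_assoc, add_comp, X_comp, neg_comp, one_comp,
      add_neg_cancel_right, comp_X] at h1
    exact prop_of_shift_one hP h1.symm

/-! ### eventual sign -/

def EvSign (f : ℕ → ℝ) : Prop := (∀ᶠ M in atTop, 0 < f M) ∨ (∀ᶠ M in atTop, f M < 0)

theorem EvSign.ne_zero {f : ℕ → ℝ} (h : EvSign f) : ∀ᶠ M in atTop, f M ≠ 0 := by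
  rcases h with h | h
  · exact h.mono fun _ h => ne_of_gt h
  · exact h.mono fun _ h => ne_of_lt h

theorem EvSign.congr {f g : ℕ → ℝ} (h : EvSign f) (hfg : ∀ᶠ M in atTop, f M = g M) :
    EvSign g := by
  rcases h with h | h
  · left; filter_upwards [h, hfg] with M h1 h2; rwa [← h2]
  · right; filter_upwards [h, hfg] with M h1 h2; rwa [← h2]

theorem EvSign.mul {f g : ℕ → ℝ} (hf : EvSign f) (hg : EvSign g) :
    EvSign (fun M => f M * g M) := by
  rcases hf with hf | hf <;> rcases hg with hg | hg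
  · left; filter_upwards [hf, hg] with M h1 h2; exact mul_pos h1 h2
  · right; filter_upwards [hf, hg] with M h1 h2; exact mul_neg_of_pos_of_neg h1 h2
  · right; filter_upwards [hf, hg] with M h1 h2; exact mul_neg_of_neg_of_pos h1 h2
  · left; filter_upwards [hf, hg] with M h1 h2; exact mul_pos_of_neg_of_neg h1 h2

theorem EvSign.inv {f : ℕ → ℝ} (hf : EvSign f) : EvSign (fun M => (f M)⁻¹) := by
  rcases hf with hf | hf
  · left; exact hf.mono fun _ h => inv_pos.2 h
  · right; exact hf.mono fun _ h => inv_lt_zero.2 h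

theorem EvSign.neg {f : ℕ → ℝ} (hf : EvSign f) : EvSign (fun M => -f M) := by
  rcases hf with hf | hf
  · right; exact hf.mono fun _ h => neg_lt_zero.2 h
  · left; exact hf.mono fun _ h => neg_pos.2 h

theorem evSign_of_mono {g : ℕ → ℝ} (h : ∀ᶠ M in atTop, 0 < g (M + 1) - g M) : EvSign g := by
  obtain ⟨M0, hM0⟩ := eventually_atTop.1 h
  have hmono : ∀ k j, M0 ≤ k → k < j → g k < g j := by
    intro k j hk hkj
    induction j, hkj using Nat.le_induction with
    | base => have := hM0 k hk; linarith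
    | succ j hj IH =>
      have := hM0 j (by omega)
      linarith
  by_cases hex : ∃ k, M0 ≤ k ∧ 0 ≤ g k
  · obtain ⟨k, hk, hgk⟩ := hex
    left
    filter_upwards [eventually_gt_atTop k] with j hj
    have := hmono k j hk hj
    linarith
  · right
    push Not at hex
    filter_upwards [eventually_ge_atTop M0] with j hj
    exact hex j hj

theorem evSign_of_diff {g : ℕ → ℝ} (h : EvSign fun M => g (M + 1) - g M) : EvSign g := by
  rcases h with h | h
  · exact evSign_of_mono h
  · have : EvSign fun M => -g M := by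
      refine evSign_of_mono ?_
      filter_upwards [h] with M hM
      linarith
    simpa using this.neg

theorem evSign_poly {P : ℝ[X]} (hP : P ≠ 0) : EvSign fun M => P.eval (M : ℝ) := by
  have h := P.isEquivalent_atTop_lead
  have hcast : Tendsto (fun M : ℕ => (M : ℝ)) atTop atTop := tendsto_natCast_atTop_atTop
  obtain ⟨u, hu, hPu⟩ := h.exists_eq_mul
  have hu' := (hu.comp hcast).eventually (eventually_gt_nhds (show (0 : ℝ) < 1 by norm_num))
  have hPu' := hcast.eventually hPu
  have hlead : P.leadingCoeff ≠ 0 := leadingCoeff_ne_zero.2 hP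
  have h1 : EvSign fun M : ℕ => u (M : ℝ) * (P.leadingCoeff * (M : ℝ) ^ P.natDegree) := by
    rcases lt_or_gt_of_ne hlead with hl | hl
    · right
      filter_upwards [hu', eventually_gt_atTop 0] with M h1 h2
      have h3 : (0 : ℝ) < M := by exact_mod_cast h2
      have h4 : (0 : ℝ) < u (M : ℝ) := h1
      have h5 : P.leadingCoeff * (M : ℝ) ^ P.natDegree < 0 :=
        mul_neg_of_neg_of_pos hl (by positivity)
      exact mul_neg_of_pos_of_neg h4 h5
    · left
      filter_upwards [hu', eventually_gt_atTop 0] with M h1 h2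
      have h3 : (0 : ℝ) < M := by exact_mod_cast h2
      have h4 : (0 : ℝ) < u (M : ℝ) := h1
      positivity
  refine h1.congr ?_
  filter_upwards [hPu'] with M hM
  exact hM.symm


/-! ### the induction -/

section Ind

variable (F : List ℕ → ℕ → ℝ)

/-- value of a family of polynomial coefficients -/
noncomputable def ev (p : List ℕ →₀ ℝ[X]) (M : ℕ) : ℝ :=
  p.sum fun w c => c.eval (M : ℝ) * F w M

/-- the contribution of one word to the new family -/
noncomputable def qw (ε τ : ℝ) (K : ℕ) (P : ℝ[X]) : List ℕ → ℝ[X] → (List ℕ →₀ ℝ[X])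
  | [], c => Finsupp.single [] ((X + C τ) ^ K * (P * c.comp (X + C ε) - P.comp (X + C ε) * c))
  | (a :: l), c =>
      Finsupp.single (a :: l) ((X + C τ) ^ K * (P * c.comp (X + C ε) - P.comp (X + C ε) * c)) +
      Finsupp.single l ((X + C τ) ^ (K - a) * (P * c.comp (X + C ε)))

/-- the new family -/
noncomputable def qq (ε τ : ℝ) (K : ℕ) (P : ℝ[X]) (p : List ℕ →₀ ℝ[X]) : List ℕ →₀ ℝ[X] :=
  p.sum (qw ε τ K P)

theorem ev_add (p q : List ℕ →₀ ℝ[X]) (M : ℕ) : ev F (p + q) M = ev F p M + ev F q M := by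
  unfold ev
  exact Finsupp.sum_add_index' (fun w => by simp) (fun w b c => by simp [add_mul])

theorem ev_single (w : List ℕ) (c : ℝ[X]) (M : ℕ) :
    ev F (Finsupp.single w c) M = c.eval (M : ℝ) * F w M := by
  unfold ev
  exact Finsupp.sum_single_index (by simp)

theorem ev_zero (M : ℕ) : ev F 0 M = 0 := by simp [ev]

theorem ev_qq (ε τ : ℝ) (K : ℕ) (P : ℝ[X]) (p : List ℕ →₀ ℝ[X]) (M : ℕ) :
    ev F (qq ε τ K P p) M = p.sum fun w c => ev F (qw ε τ K P w c) M := by
  unfold qq
  rw [Finsupp.sum, Finsupp.sum]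
  induction p.support using Finset.induction_on with
  | empty => simp [ev_zero]
  | insert a s ha IH => rw [Finset.sum_insert ha, ev_add, IH, Finset.sum_insert ha]

/-- difference step -/
theorem step {ε τ : ℝ} {e : ℕ → ℕ} {M : ℕ} (he : (e M : ℝ) = M + ε) (hτ : (M : ℝ) + τ ≠ 0)
    (hF0 : ∀ M, F [] M = 1)
    (K : ℕ) (P : ℝ[X]) (p : List ℕ →₀ ℝ[X])
    (hF : ∀ a l, a :: l ∈ p.support →
      F (a :: l) (e M) = F (a :: l) M + (((M : ℝ) + τ) ^ a)⁻¹ * F l M)
    (hK : ∀ w ∈ p.support, ∀ a ∈ w, a ≤ K) :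
    ev F (qq ε τ K P p) M = ((M : ℝ) + τ) ^ K *
      (P.eval (M : ℝ) * ev F p (e M) - P.eval ((M : ℝ) + ε) * ev F p M) := by
  rw [ev_qq]
  unfold ev
  simp only [Finsupp.sum, Finset.mul_sum, mul_sub]
  rw [← Finset.sum_sub_distrib]
  refine Finset.sum_congr rfl fun w hw => ?_
  cases w with
  | nil =>
    have := ev_single F [] ((X + C τ) ^ K * (P * (p []).comp (X + C ε) -
      P.comp (X + C ε) * (p []))) M
    rw [ev] at this
    simp only [Finsupp.sum] at this
    simp only [qw]
    rw [this]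
    simp only [eval_mul, eval_pow, eval_add, eval_X, eval_C, eval_sub, eval_comp, hF0, he]
    ring
  | cons a l =>
    have h1 := ev_add F (Finsupp.single (a :: l) ((X + C τ) ^ K * (P * (p (a :: l)).comp (X + C ε) -
      P.comp (X + C ε) * (p (a :: l))))) (Finsupp.single l ((X + C τ) ^ (K - a) *
        (P * (p (a :: l)).comp (X + C ε)))) M
    rw [ev_single, ev_single] at h1
    rw [ev] at h1
    simp only [Finsupp.sum] at h1
    simp only [qw]
    rw [h1]
    have haK : a ≤ K := hK _ hw a (by simp)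
    have hpow : ((M : ℝ) + τ) ^ K * (((M : ℝ) + τ) ^ a)⁻¹ = ((M : ℝ) + τ) ^ (K - a) := by
      rw [pow_sub₀ _ hτ haK]
    simp only [eval_mul, eval_pow, eval_add, eval_X, eval_C, eval_sub, eval_comp, he, hF a l hw]
    rw [← hpow]
    ring

theorem qw_apply_top (ε τ : ℝ) (K : ℕ) (P : ℝ[X]) (w w0 : List ℕ) (c : ℝ[X])
    (h : w.length ≤ w0.length) :
    qw ε τ K P w c w0 = if w = w0 then
      (X + C τ) ^ K * (P * c.comp (X + C ε) - P.comp (X + C ε) * c) else 0 := by
  cases w with
  | nil => simp only [qw, Finsupp.single_apply]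
  | cons a l =>
    have hl : l ≠ w0 := by
      rintro rfl
      simp at h
    simp only [qw, Finsupp.add_apply, Finsupp.single_apply]
    rw [if_neg hl, add_zero]

theorem qq_top (ε τ : ℝ) (K : ℕ) (P : ℝ[X]) (p : List ℕ →₀ ℝ[X]) (w0 : List ℕ)
    (h : ∀ w ∈ p.support, w.length ≤ w0.length) :
    qq ε τ K P p w0 =
      (X + C τ) ^ K * (P * (p w0).comp (X + C ε) - P.comp (X + C ε) * p w0) := by
  classical
  unfold qq
  rw [Finsupp.sum_apply, Finsupp.sum]
  rw [Finset.sum_congr rfl fun w hw => qw_apply_top ε τ K P w w0 (p w) (h w hw)]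
  by_cases h0 : w0 ∈ p.support
  · rw [Finset.sum_eq_single w0]
    · simp
    · intro b _ hb
      rw [if_neg hb]
    · intro h1; exact absurd h0 h1
  · rw [Finsupp.notMem_support_iff.1 h0]
    rw [Finset.sum_eq_zero]
    · simp
    · intro b hb
      rw [if_neg]
      rintro rfl
      exact h0 hb

theorem qq_sub (ε τ : ℝ) (K : ℕ) (P : ℝ[X]) (p : List ℕ →₀ ℝ[X]) (u : List ℕ)
    (h : ∀ w ∈ p.support, w.length ≤ u.length + 1) (hK : ∀ w ∈ p.support, ∀ a ∈ w, a ≤ K) :
    qq ε τ K P p u =
      (X + C τ) ^ K * (P * (p u).comp (X + C ε) - P.comp (X + C ε) * p u) +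
      ∑ a ∈ (Finset.range (K + 1)).filter (fun a => a :: u ∈ p.support),
        (X + C τ) ^ (K - a) * (P * (p (a :: u)).comp (X + C ε)) := by
  classical
  unfold qq
  rw [Finsupp.sum_apply, Finsupp.sum]
  have hsplit : ∀ w ∈ p.support, qw ε τ K P w (p w) u =
      (if w = u then (X + C τ) ^ K * (P * (p w).comp (X + C ε) - P.comp (X + C ε) * p w) else 0) +
      (if w.tail = u ∧ w ≠ [] then (X + C τ) ^ (K - w.headI) * (P * (p w).comp (X + C ε))
        else 0) := by
    intro w hw
    cases w with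
    | nil => simp only [qw, Finsupp.single_apply]; simp
    | cons a l => simp only [qw, Finsupp.add_apply, Finsupp.single_apply]; simp
  rw [Finset.sum_congr rfl hsplit, Finset.sum_add_distrib]
  congr 1
  · by_cases h0 : u ∈ p.support
    · rw [Finset.sum_eq_single u]
      · simp
      · intro b _ hb
        rw [if_neg hb]
      · intro h1; exact absurd h0 h1
    · rw [Finsupp.notMem_support_iff.1 h0]
      rw [Finset.sum_eq_zero]
      · simp
      · intro b hb
        rw [if_neg]
        rintro rfl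
        exact h0 hb
  · rw [← Finset.sum_filter]
    refine Finset.sum_bij' (fun w _ => w.headI) (fun a _ => a :: u) ?_ ?_ ?_ ?_ ?_
    · intro w hw
      obtain ⟨hw1, hw2, hw3⟩ := Finset.mem_filter.1 hw
      cases w with
      | nil => exact absurd rfl hw3
      | cons a l =>
        simp only [List.tail_cons] at hw2
        subst hw2
        simp only [List.headI_cons, Finset.mem_filter, Finset.mem_range]
        exact ⟨Nat.lt_succ_of_le (hK _ hw1 a (by simp)), hw1⟩
    · intro a ha
      obtain ⟨ha1, ha2⟩ := Finset.mem_filter.1 ha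
      simp only [Finset.mem_filter]
      exact ⟨ha2, by simp, by simp⟩
    · intro w hw
      obtain ⟨hw1, hw2, hw3⟩ := Finset.mem_filter.1 hw
      cases w with
      | nil => exact absurd rfl hw3
      | cons a l =>
        simp only [List.tail_cons] at hw2
        simp [hw2]
    · intro a ha
      simp
    · intro w hw
      obtain ⟨hw1, hw2, hw3⟩ := Finset.mem_filter.1 hw
      cases w with
      | nil => exact absurd rfl hw3
      | cons a l =>
        simp only [List.tail_cons] at hw2
        simp [hw2]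

/-- the new family is nonzero -/
theorem qq_ne_zero {ε τ : ℝ} (hd : Dir ε τ) {K : ℕ} {p : List ℕ →₀ ℝ[X]} {a0 : ℕ} {u : List ℕ}
    (hu : a0 :: u ∈ p.support) (h : ∀ w ∈ p.support, w.length ≤ u.length + 1)
    (hK : ∀ w ∈ p.support, ∀ a ∈ w, a ≤ K) (hpos : ∀ w ∈ p.support, ∀ a ∈ w, 1 ≤ a) :
    qq ε τ K (p (a0 :: u)) p ≠ 0 := by
  classical
  intro hq
  set P := p (a0 :: u) with hPdef
  have hP : P ≠ 0 := Finsupp.mem_support_iff.1 hu
  have hXne : (X + C τ : ℝ[X]) ≠ 0 := X_add_C_ne_zero τ
  have hprop : ∀ a, a :: u ∈ p.support → ∃ k : ℝ, k ≠ 0 ∧ p (a :: u) = C k * P := by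
    intro a ha
    have h1 := qq_top ε τ K P p (a :: u) (fun w hw => by simpa using h w hw)
    rw [hq, Finsupp.zero_apply] at h1
    have h2 := (mul_eq_zero.1 h1.symm).resolve_left (pow_ne_zero _ hXne)
    obtain ⟨k, hk⟩ := prop_of_shift hd hP (sub_eq_zero.1 h2)
    refine ⟨k, ?_, hk⟩
    rintro rfl
    rw [map_zero, zero_mul] at hk
    exact Finsupp.mem_support_iff.1 ha hk
  choose! k hk0 hk using hprop
  set S := (Finset.range (K + 1)).filter (fun a => a :: u ∈ p.support) with hS
  have hSne : S.Nonempty :=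
    ⟨a0, Finset.mem_filter.2 ⟨Finset.mem_range.2 (Nat.lt_succ_of_le (hK _ hu a0 (by simp))), hu⟩⟩
  set am := S.max' hSne with ham
  have hamS : am ∈ S := S.max'_mem hSne
  obtain ⟨hamK, hamu⟩ := Finset.mem_filter.1 hamS
  have hamK' : am ≤ K := Nat.lt_succ_iff.1 (Finset.mem_range.1 hamK)
  have ham1 : 1 ≤ am := hpos _ hamu am (by simp)
  set G : ℝ[X] := ∑ a ∈ S, C (k a) * (X + C τ) ^ (am - a) with hG
  have hGev : G.eval (-τ) = k am := by
    rw [hG, eval_finsetSum, Finset.sum_eq_single am]
    · simp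
    · intro b hb hbm
      have hlt : b < am := lt_of_le_of_ne (S.le_max' b hb) hbm
      simp only [eval_mul, eval_C, eval_pow, eval_add, eval_X, neg_add_cancel]
      rw [zero_pow (by omega), mul_zero]
    · intro hnot; exact absurd hamS hnot
  have h3 := qq_sub ε τ K P p u h hK
  rw [hq, Finsupp.zero_apply] at h3
  have h4 : ∑ a ∈ S, (X + C τ) ^ (K - a) * (P * (p (a :: u)).comp (X + C ε)) =
      (X + C τ) ^ (K - am) * (G * P * P.comp (X + C ε)) := by
    rw [hG, Finset.sum_mul, Finset.sum_mul, Finset.mul_sum]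
    refine Finset.sum_congr rfl fun a ha => ?_
    have hau := (Finset.mem_filter.1 ha).2
    have hle : a ≤ am := S.le_max' a ha
    rw [hk a hau, mul_comp, C_comp]
    have : (X + C τ : ℝ[X]) ^ (K - a) = (X + C τ) ^ (K - am) * (X + C τ) ^ (am - a) := by
      rw [← pow_add]; congr 1; omega
    rw [this]; ring
  rw [h4] at h3
  have h5 : (X + C τ : ℝ[X]) ^ K = (X + C τ) ^ (K - am) * (X + C τ) ^ am := by
    rw [← pow_add]; congr 1; omega
  rw [h5] at h3
  have h6 : (X + C τ : ℝ[X]) ^ (K - am) * ((X + C τ) ^ am *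
      (P * (p u).comp (X + C ε) - P.comp (X + C ε) * p u)) =
      (X + C τ : ℝ[X]) ^ (K - am) * (-G * P * P.comp (X + C ε)) := by
    linear_combination -h3
  have h7 := mul_left_cancel₀ (pow_ne_zero _ hXne) h6
  refine no_pole_dir hd (by omega) hP ?_ h7
  rw [eval_neg, hGev]
  exact neg_ne_zero.2 (hk0 am hamu)

theorem qw_support {ε τ : ℝ} {K : ℕ} {P : ℝ[X]} {w w0 : List ℕ} {c : ℝ[X]}
    (h : w0 ∈ (qw ε τ K P w c).support) : w0 = w ∨ ∃ a, w = a :: w0 := by
  classical
  cases w with
  | nil =>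
    left
    simp only [qw] at h
    exact Finset.mem_singleton.1 (Finsupp.support_single_subset h)
  | cons a l =>
    simp only [qw] at h
    rcases Finset.mem_union.1 (Finsupp.support_add h) with h | h
    · left; exact Finset.mem_singleton.1 (Finsupp.support_single_subset h)
    · right; exact ⟨a, by rw [Finset.mem_singleton.1 (Finsupp.support_single_subset h)]⟩

theorem qq_support {ε τ : ℝ} {K : ℕ} {P : ℝ[X]} {p : List ℕ →₀ ℝ[X]} {w0 : List ℕ}
    (h : w0 ∈ (qq ε τ K P p).support) : ∃ w ∈ p.support, w0 = w ∨ ∃ a, w = a :: w0 := by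
  classical
  unfold qq at h
  rw [Finsupp.sum] at h
  obtain ⟨w, hw, h2⟩ := Finset.mem_biUnion.1 (Finsupp.support_finsetSum h)
  exact ⟨w, hw, qw_support h2⟩

end Ind

/-- hypotheses on the family of functions -/
structure Sys (F : List ℕ → ℕ → ℝ) (ε τ : ℝ) (e : ℕ → ℕ) (κ : ℕ) : Prop where
  dir : Dir ε τ
  nil : ∀ M, F [] M = 1
  he : ∀ M, 1 ≤ M → (e M : ℝ) = M + ε
  hκ : 1 ≤ κ
  step : ∀ M, 1 ≤ M → ∀ a l, (∀ b ∈ a :: l, κ ≤ b) →
    F (a :: l) (e M) = F (a :: l) M + (((M : ℝ) + τ) ^ a)⁻¹ * F l M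

theorem Sys.evSign_of_diff {F : List ℕ → ℕ → ℝ} {ε τ : ℝ} {e : ℕ → ℕ} {κ : ℕ} (hS : Sys F ε τ e κ)
    {g : ℕ → ℝ} (h : EvSign fun M => g (e M) - g M) : EvSign g := by
  have hcast : ∀ M, 1 ≤ M → (ε = 1 → e M = M + 1) ∧ (ε = -1 → e M + 1 = M) := by
    intro M hM
    have h1 := hS.he M hM
    constructor
    · rintro rfl
      exact_mod_cast h1
    · rintro rfl
      have : ((e M + 1 : ℕ) : ℝ) = M := by push_cast; linarith
      exact_mod_cast this
  rcases hS.dir with ⟨he, _⟩ | ⟨he, _⟩
  · refine HofPers.evSign_of_diff (h.congr ?_)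
    filter_upwards [eventually_ge_atTop 1] with M hM
    rw [(hcast M hM).1 he]
  · have h2 : EvSign fun M => -(g (e (M + 1)) - g (M + 1)) := by
      have := h.neg
      rcases this with h | h
      · left; exact (tendsto_add_atTop_nat 1).eventually h
      · right; exact (tendsto_add_atTop_nat 1).eventually h
    refine HofPers.evSign_of_diff (h2.congr ?_)
    filter_upwards with M
    have h3 := (hcast (M + 1) (by omega)).2 he
    have h4 : e (M + 1) = M := by omega
    rw [h4]; ring

theorem Sys.tendsto_e {F : List ℕ → ℕ → ℝ} {ε τ : ℝ} {e : ℕ → ℕ} {κ : ℕ} (hS : Sys F ε τ e κ) :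
    Tendsto e atTop atTop := by
  refine tendsto_atTop.2 fun b => ?_
  filter_upwards [eventually_ge_atTop (b + 2)] with M hM
  have h1 := hS.he M (by omega)
  have h2 : ((b + 2 : ℕ) : ℝ) ≤ M := by exact_mod_cast hM
  have h3 : -1 ≤ ε := by
    rcases hS.dir with ⟨he, _⟩ | ⟨he, _⟩ <;> rw [he] <;> norm_num
  have h4 : (b : ℝ) ≤ e M := by rw [h1]; push_cast at h2; linarith
  exact_mod_cast h4

theorem main_sign {F : List ℕ → ℕ → ℝ} {ε τ : ℝ} {e : ℕ → ℕ} {κ : ℕ} (hS : Sys F ε τ e κ) :
    ∀ (ℓ n : ℕ) (p : List ℕ →₀ ℝ[X]), (∀ w ∈ p.support, w.length ≤ ℓ) →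
      (p.support.filter (fun w => w.length = ℓ)).card ≤ n →
      (∀ w ∈ p.support, ∀ a ∈ w, κ ≤ a) → p ≠ 0 → EvSign (ev F p) := by
  classical
  intro ℓ
  induction ℓ with
  | zero =>
    intro n p hlen _ _ hp
    have hsup : ∀ w ∈ p.support, w = [] := fun w hw =>
      List.length_eq_zero_iff.1 (Nat.le_zero.1 (hlen w hw))
    have hps : p = Finsupp.single [] (p []) := by
      ext1 w
      by_cases h : w = []
      · subst h; simp
      · rw [Finsupp.single_apply, if_neg (Ne.symm h)]
        exact Finsupp.notMem_support_iff.1 fun hw => h (hsup w hw)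
    have hp0 : p [] ≠ 0 := by
      intro h0
      rw [h0, Finsupp.single_zero] at hps
      exact hp hps
    refine (evSign_poly hp0).congr ?_
    filter_upwards with M
    rw [hps, ev_single, hS.nil, mul_one]
    simp
  | succ ℓ IHℓ =>
    intro n
    induction n with
    | zero =>
      intro p hlen hcard hpos hp
      have h0 : p.support.filter (fun w => w.length = ℓ + 1) = ∅ :=
        Finset.card_eq_zero.1 (Nat.le_zero.1 hcard)
      refine IHℓ (p.support.filter (fun w => w.length = ℓ)).card p (fun w hw => ?_) le_rfl hpos hp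
      have h1 := hlen w hw
      by_contra h2
      have h3 : w ∈ p.support.filter (fun w => w.length = ℓ + 1) :=
        Finset.mem_filter.2 ⟨hw, by omega⟩
      rw [h0] at h3
      exact absurd h3 (Finset.notMem_empty _)
    | succ n IHn =>
      intro p hlen hcard hpos hp
      rcases Finset.eq_empty_or_nonempty (p.support.filter (fun w => w.length = ℓ + 1)) with
        h0 | ⟨v, hv⟩
      · exact IHn p hlen (by rw [h0]; simp) hpos hp
      obtain ⟨hv1, hv2⟩ := Finset.mem_filter.1 hv
      obtain ⟨a0, u, rfl⟩ : ∃ a0 u, v = a0 :: u := by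
        cases v with
        | nil => simp at hv2
        | cons a l => exact ⟨a, l, rfl⟩
      have hul : u.length = ℓ := by simpa using hv2
      set K : ℕ := p.support.sup (fun w => w.sum) with hKdef
      have hK : ∀ w ∈ p.support, ∀ a ∈ w, a ≤ K := fun w hw a ha =>
        (List.single_le_sum (fun _ _ => Nat.zero_le _) a ha).trans
          (Finset.le_sup (f := fun w : List ℕ => w.sum) hw)
      set P := p (a0 :: u) with hPdef
      have hP : P ≠ 0 := Finsupp.mem_support_iff.1 hv1
      have hlen' : ∀ w ∈ p.support, w.length ≤ u.length + 1 := by rw [hul]; exact hlen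
      have hq := qq_ne_zero hS.dir hv1 hlen' hK (fun w hw a ha => hS.hκ.trans (hpos w hw a ha))
      have hqlen : ∀ w ∈ (qq ε τ K P p).support, w.length ≤ ℓ + 1 := by
        intro w hw
        obtain ⟨w', hw', h | ⟨a, h⟩⟩ := qq_support hw
        · rw [h]; exact hlen w' hw'
        · have := hlen w' hw'
          rw [h] at this
          simp at this
          omega
      have hqpos : ∀ w ∈ (qq ε τ K P p).support, ∀ a ∈ w, κ ≤ a := by
        intro w hw a ha
        obtain ⟨w', hw', h | ⟨b, h⟩⟩ := qq_support hw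
        · exact hpos w' hw' a (by rw [← h]; exact ha)
        · exact hpos w' hw' a (by rw [h]; simp [ha])
      have hqcard : ((qq ε τ K P p).support.filter (fun w => w.length = ℓ + 1)).card ≤ n := by
        have hsub : (qq ε τ K P p).support.filter (fun w => w.length = ℓ + 1) ⊆
            (p.support.filter (fun w => w.length = ℓ + 1)).erase (a0 :: u) := by
          intro w hw
          obtain ⟨hw1, hw2⟩ := Finset.mem_filter.1 hw
          have htop := qq_top ε τ K P p w (fun w' hw' => by rw [hw2]; exact hlen w' hw')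
          have hne := Finsupp.mem_support_iff.1 hw1
          rw [Finset.mem_erase, Finset.mem_filter]
          refine ⟨?_, ?_, hw2⟩
          · rintro rfl
            rw [htop] at hne
            apply hne
            rw [← hPdef, mul_comm P, sub_self, mul_zero]
          · rw [Finsupp.mem_support_iff]
            intro h0
            rw [htop, h0] at hne
            simp at hne
        have h1 := Finset.card_le_card hsub
        rw [Finset.card_erase_of_mem hv] at h1
        omega
      have hEv := IHn _ hqlen hqcard hqpos hq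
      -- the quotient
      have hPs := evSign_poly hP
      have hPe : EvSign fun M => P.eval (e M : ℝ) := by
        rcases hPs with h | h
        · left; exact hS.tendsto_e.eventually h
        · right; exact hS.tendsto_e.eventually h
      have hXs : EvSign fun M : ℕ => (((M : ℝ) + τ) ^ K)⁻¹ := by
        left
        filter_upwards [eventually_ge_atTop 1] with M hM
        have h1 : (1 : ℝ) ≤ M := by exact_mod_cast hM
        have h2 : 0 ≤ τ := by
          rcases hS.dir with ⟨_, h⟩ | ⟨_, h⟩ <;> rw [h] <;> norm_num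
        positivity
      have hg : EvSign fun M => ev F p M * (P.eval (M : ℝ))⁻¹ := by
        refine hS.evSign_of_diff ?_
        refine (((hEv.mul hXs).mul hPs.inv).mul hPe.inv).congr ?_
        filter_upwards [hPs.ne_zero, hPe.ne_zero, eventually_ge_atTop 1] with M h1 h2 hM
        have h0 : (1 : ℝ) ≤ M := by exact_mod_cast hM
        have h3 : 0 ≤ τ := by
          rcases hS.dir with ⟨_, h⟩ | ⟨_, h⟩ <;> rw [h] <;> norm_num
        have hτ : (M : ℝ) + τ ≠ 0 := by positivity
        rw [step F (hS.he M hM) hτ hS.nil K P p (fun a l hal => hS.step M hM a l (hpos _ hal)) hK,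
          ← hS.he M hM]
        field_simp
      refine (hg.mul hPs).congr ?_
      filter_upwards [hPs.ne_zero] with M h1
      field_simp

/-- linear combinations with real coefficients -/
theorem lin_sign {F : List ℕ → ℕ → ℝ} {ε τ : ℝ} {e : ℕ → ℕ} {κ : ℕ} (hS : Sys F ε τ e κ)
    {c : List ℕ →₀ ℝ} (hc : c ≠ 0) (hpos : ∀ w ∈ c.support, ∀ a ∈ w, κ ≤ a) :
    EvSign fun M => c.sum fun w x => x * F w M := by
  classical
  set p : List ℕ →₀ ℝ[X] := c.mapRange (fun x => (C x : ℝ[X])) (map_zero _) with hp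
  have hsup : p.support = c.support := by
    rw [hp]
    exact Finsupp.support_mapRange_of_injective _ _ (C_injective)
  have hpne : p ≠ 0 := by
    intro h
    apply hc
    rw [← Finsupp.support_eq_empty, ← hsup, h, Finsupp.support_zero]
  have h := main_sign hS (p.support.sup List.length) _ p
    (fun w hw => Finset.le_sup (f := List.length) hw) le_rfl (by rw [hsup]; exact hpos) hpne
  refine h.congr ?_
  filter_upwards with M
  rw [ev, hp, Finsupp.sum_mapRange_index (by simp)]
  simp

end HofPers
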